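import Pool.Agent.Run7.h691.GJ.Asy
import Pool.Agent.Run7.h691.GZ.NS

/-!
# GJ: the joint law in terms of the elements
-/

set_option autoImplicit false
set_option linter.unusedVariables false

open scoped Classical
open Finset Filter

namespace Pool.Agent.H691.GJ

open H385 (ZI nrm)
open Pool.Agent.Y699 (PP PS PD PS_prod mem_PD PD_one)
open Pool.Agent.Y703.CQ (c2)
open Pool.Agent.H304R2.EC.A1 (prim)
open Pool.Agent.H691.GZ (qa Gd SS S_LOW Cl ClsE)

/-! ### limits -/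

/-- from the error bound to the limit of the ratio -/
theorem lim_of {A B : ℕ → ℝ} {c : ℝ} (hB : ∃ (a : ℝ), 0 < a ∧ ∀ᶠ X : ℕ in atTop, a * X ≤ B X)
    (h : ∀ ε : ℝ, 0 < ε → ∀ᶠ X : ℕ in atTop, |A X - c * B X| ≤ ε * X) :
    Tendsto (fun X => A X / B X) atTop (nhds c) := by
  obtain ⟨a, ha, hB⟩ := hB
  rw [Metric.tendsto_nhds]
  intro ε hε
  filter_upwards [hB, h (a * ε / 2) (by positivity), eventually_gt_atTop 0] with X h1 h2 h3
  have hX : (0 : ℝ) < X := by exact_mod_cast h3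
  have hBp : 0 < B X := lt_of_lt_of_le (by positivity) h1
  rw [Real.dist_eq]
  have e : A X / B X - c = (A X - c * B X) / B X := by field_simp
  rw [e, abs_div, abs_of_pos hBp, div_lt_iff₀ hBp]
  calc |A X - c * B X| ≤ a * ε / 2 * X := h2
    _ = ε / 2 * (a * X) := by ring
    _ ≤ ε / 2 * B X := by gcongr
    _ < ε * B X := by
        apply mul_lt_mul_of_pos_right _ hBp
        linarith

/-- the parameters of the classes of project GZ -/
def parN (R : Finset ℕ) : Par := ⟨fun _ => True, nrm, R⟩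

theorem SG_parN (R : Finset ℕ) (X : ℕ) : SG (parN R) X = SS R X := by
  ext S
  rw [KEY.mem_SG, Pool.Agent.H691.GZ.KEY.mem_SS]
  unfold ClG Cl parN
  simp

/-- **the joint law**, for the sets of primes with norms in a set of residues modulo `16` -/
theorem t_JN {R : Finset ℕ} (hR : S_LOW R) (W : Finset ZI) (hW : ∀ u ∈ W, PP u)
    (𝒰 : Finset (Finset ZI)) (hU : ∀ U ∈ 𝒰, U ⊆ W) :
    Tendsto (fun X : ℕ => (((SS R X).filter (GdJ 𝒰)).card : ℝ) / ((SS R X).card : ℝ)) atTop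
      (nhds (c2 ^ 𝒰.card)) := by
  obtain ⟨c, X₀, hc, hlow⟩ := hR
  refine lim_of ⟨c, hc, ?_⟩ fun ε hε => ?_
  · filter_upwards [eventually_ge_atTop X₀] with X hX
    exact hlow X hX
  · have h := t_AJ (parN R) W hW 𝒰 hU (fun _ _ => True) ε hε
    filter_upwards [h] with X hX
    rw [SG_parN] at hX
    unfold EvS at hX
    simp only [true_and, Finset.filter_true] at hX
    exact hX

/-! ### squares -/

theorem sq_div {a q t : ZI} (hq : q ≠ 0) (h : a * q ^ 2 = t ^ 2) : IsSquare a := by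
  have h1 : q ^ 2 ∣ t ^ 2 := ⟨a, by rw [← h, mul_comm]⟩
  obtain ⟨s, rfl⟩ := (UniqueFactorizationMonoid.pow_dvd_pow_iff_dvd two_ne_zero).1 h1
  refine ⟨s, ?_⟩
  apply mul_right_cancel₀ (pow_ne_zero 2 hq)
  rw [h]
  ring

theorem prod3 (S T : Finset ZI) : (∏ π ∈ S, π) * (∏ π ∈ T, π) * ∏ π ∈ symmDiff S T, π =
    (∏ π ∈ S ∪ T, π) ^ 2 := by
  have h1 : (∏ π ∈ S ∪ T, π) * ∏ π ∈ S ∩ T, π = (∏ π ∈ S, π) * ∏ π ∈ T, π :=
    Finset.prod_union_inter
  have h2 : (∏ π ∈ S ∩ T, π) * ∏ π ∈ symmDiff S T, π = ∏ π ∈ S ∪ T, π := by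
    rw [← Finset.prod_union]
    · congr 1
      ext x
      simp only [Finset.mem_union, Finset.mem_inter, Finset.mem_symmDiff]
      tauto
    · rw [Finset.disjoint_left]
      intro x hx hx'
      simp only [Finset.mem_inter, Finset.mem_symmDiff] at hx hx'
      tauto
  rw [← h1, mul_assoc, h2, sq]

variable {r : ℕ}

/-- the primes which occur an odd number of times in the product of the `b i` with `i ∈ J` -/
noncomputable def UJ (b : Fin r → ZI) (J : Finset (Fin r)) : Finset ZI :=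
  (univ.biUnion fun i => PD (b i)).filter fun π =>
    ∑ i ∈ J, (if π ∈ PD (b i) then (1 : ZMod 2) else 0) ≠ 0

theorem mem_UJ {b : Fin r → ZI} {J : Finset (Fin r)} {π : ZI} :
    π ∈ UJ b J ↔ ∑ i ∈ J, (if π ∈ PD (b i) then (1 : ZMod 2) else 0) ≠ 0 := by
  unfold UJ
  rw [mem_filter, mem_biUnion]
  constructor
  · exact fun h => h.2
  · intro h
    refine ⟨?_, h⟩
    by_contra hc
    push Not at hc
    apply h
    refine Finset.sum_eq_zero fun i _ => ?_
    rw [if_neg (hc i (mem_univ i))]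

theorem UJ_insert {b : Fin r → ZI} {J : Finset (Fin r)} {a : Fin r} (ha : a ∉ J) :
    UJ b (insert a J) = symmDiff (PD (b a)) (UJ b J) := by
  ext π
  rw [mem_UJ, Finset.sum_insert ha, Finset.mem_symmDiff, mem_UJ]
  have key : ∀ x : ZMod 2, 1 + x ≠ 0 ↔ ¬ x ≠ 0 := by decide
  by_cases h : π ∈ PD (b a)
  · rw [if_pos h, key]
    tauto
  · rw [if_neg h, zero_add]
    tauto

theorem UJ_empty (b : Fin r → ZI) : UJ b ∅ = ∅ := by
  ext π
  rw [mem_UJ]
  simp

theorem UJ_sq {b : Fin r → ZI} (hb : ∀ i, PS (b i)) (J : Finset (Fin r)) :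
    IsSquare ((∏ i ∈ J, b i) * ∏ π ∈ UJ b J, π) := by
  induction J using Finset.induction_on with
  | empty =>
    rw [UJ_empty, prod_empty, prod_empty]
    exact ⟨1, by ring⟩
  | insert a J ha ih =>
    obtain ⟨z, hz⟩ := ih
    rw [UJ_insert ha, Finset.prod_insert ha]
    have h1 := prod3 (PD (b a)) (UJ b J)
    have h2 : ∏ π ∈ PD (b a), π = b a := (hb a).prod
    rw [h2] at h1
    have hU : ∀ π ∈ UJ b J, PP π := by
      intro π hπ
      unfold UJ at hπ
      rw [mem_filter, mem_biUnion] at hπ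
      obtain ⟨⟨i, -, hi⟩, -⟩ := hπ
      exact ((mem_PD (hb i).ne).1 hi).1
    have hne : ∏ π ∈ UJ b J, π ≠ 0 := (PS_prod hU).1.ne
    refine sq_div hne (t := z * ∏ π ∈ PD (b a) ∪ UJ b J, π) ?_
    rw [mul_pow, ← h1, pow_two z, ← hz]
    ring

theorem UJ_pp {b : Fin r → ZI} (hb : ∀ i, PS (b i)) (J : Finset (Fin r)) {π : ZI}
    (hπ : π ∈ UJ b J) : PP π := by
  unfold UJ at hπ
  rw [mem_filter, mem_biUnion] at hπ
  obtain ⟨⟨i, -, hi⟩, -⟩ := hπ
  exact ((mem_PD (hb i).ne).1 hi).1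

/-- the primes of `D b^J` -/
theorem DJ_pp {b : Fin r → ZI} (hb : ∀ i, PS (b i)) {D : ZI} (hD : PS D) (J : Finset (Fin r)) :
    ∀ π ∈ symmDiff (PD D) (UJ b J), PP π := by
  intro π hπ
  rcases Finset.mem_symmDiff.1 hπ with h | h
  · exact ((mem_PD hD.ne).1 h.1).1
  · exact UJ_pp hb J h.1

theorem DJ_sq {b : Fin r → ZI} (hb : ∀ i, PS (b i)) {D : ZI} (hD : PS D) (J : Finset (Fin r)) :
    IsSquare (D * (∏ π ∈ symmDiff (PD D) (UJ b J), π) * ∏ i ∈ J, b i) := by
  obtain ⟨z, hz⟩ := UJ_sq hb J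
  have h1 := prod3 (PD D) (UJ b J)
  have h2 : ∏ π ∈ PD D, π = D := hD.prod
  rw [h2] at h1
  have hne : ∏ π ∈ UJ b J, π ≠ 0 := (PS_prod fun π hπ => UJ_pp hb J hπ).1.ne
  refine sq_div hne (t := z * ∏ π ∈ PD D ∪ UJ b J, π) ?_
  rw [mul_pow, ← h1, pow_two z, ← hz]
  ring

/-- primary squarefree elements whose product is a square are equal -/
theorem uniq {D D' : ZI} (hD : PS D) (hD' : PS D') (h : IsSquare (D * D')) : D = D' := by
  have key : ∀ {D D' : ZI}, PS D → PS D' → IsSquare (D * D') → PD D ⊆ PD D' := by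
    intro D D' hD hD' h π hπ
    obtain ⟨t, ht⟩ := h
    obtain ⟨h1, h2⟩ := (mem_PD hD.ne).1 hπ
    rw [mem_PD hD'.ne]
    refine ⟨h1, ?_⟩
    have h3 : π ∣ t := by
      have : π ∣ t * t := by rw [← ht]; exact h2.mul_right _
      rcases h1.pr.dvd_or_dvd this with h | h <;> exact h
    have h4 : π * π ∣ D * D' := by rw [ht]; exact mul_dvd_mul h3 h3
    obtain ⟨c, rfl⟩ := h2
    have h5 : ¬ π ∣ c := fun h => h1.pr.not_isUnit (hD.sqf π (mul_dvd_mul_left π h))
    have h6 : π ∣ c * D' := by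
      rw [mul_assoc] at h4
      exact (mul_dvd_mul_iff_left h1.ne).1 h4
    exact (h1.pr.dvd_or_dvd h6).resolve_left h5
  have h1 := key hD hD' h
  have h2 := key hD' hD (by rw [mul_comm]; exact h)
  rw [← hD.prod, ← hD'.prod]
  exact congrArg (fun S : Finset ZI => ∏ π ∈ S, π) (Finset.Subset.antisymm h1 h2)

/-- the element with the primes of `D b^J` -/
theorem DJ_uniq {b : Fin r → ZI} (hb : ∀ i, PS (b i)) {D D' : ZI} (hD : PS D) (hD' : PS D')
    (J : Finset (Fin r)) (h : IsSquare (D * D' * ∏ i ∈ J, b i)) :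
    PD D' = symmDiff (PD D) (UJ b J) := by
  obtain ⟨p1, p2⟩ := PS_prod (DJ_pp hb hD J)
  have h1 := DJ_sq hb hD J
  obtain ⟨s, hs⟩ := h
  obtain ⟨t, ht⟩ := h1
  have hne : D * ∏ i ∈ J, b i ≠ 0 := mul_ne_zero hD.ne (Finset.prod_ne_zero_iff.2 fun i _ => (hb i).ne)
  have h2 : D' = ∏ π ∈ symmDiff (PD D) (UJ b J), π := by
    refine uniq hD' p1 (sq_div hne (t := s * t) ?_)
    rw [mul_pow, mul_pow s t, pow_two s, pow_two t, ← hs, ← ht]
    ring
  rw [h2, p2]

/-- the system of the masks -/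
noncomputable def UU (b : Fin r → ZI) : Finset (Finset ZI) := univ.image (UJ b)

theorem sum_sd {ι : Type} [DecidableEq ι] (J J' : Finset ι) (f : ι → ZMod 2) :
    ∑ i ∈ symmDiff J J', f i = ∑ i ∈ J, f i + ∑ i ∈ J', f i := by
  have h1 : symmDiff J J' = (J \ J') ∪ (J' \ J) := rfl
  have hd : Disjoint (J \ J') (J' \ J) := by
    rw [Finset.disjoint_left]
    intro x hx hx'
    rw [Finset.mem_sdiff] at hx hx'
    exact hx.2 hx'.1
  have e1 : ∑ i ∈ J, f i = ∑ i ∈ J \ J', f i + ∑ i ∈ J ∩ J', f i := by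
    rw [add_comm, Finset.sum_inter_add_sum_sdiff]
  have e2 : ∑ i ∈ J', f i = ∑ i ∈ J' \ J, f i + ∑ i ∈ J ∩ J', f i := by
    rw [add_comm, Finset.inter_comm, Finset.sum_inter_add_sum_sdiff]
  rw [h1, Finset.sum_union hd, e1, e2]
  have : ∀ a b c : ZMod 2, a + b = a + c + (b + c) := by decide
  exact this _ _ _

theorem UJ_inj {b : Fin r → ZI} (hb : ∀ i, PS (b i))
    (hind : ∀ J : Finset (Fin r), J.Nonempty → ¬ IsSquare (∏ i ∈ J, b i)) :
    Function.Injective (UJ b) := by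
  intro J J' h
  by_contra hne
  have h1 : (symmDiff J J').Nonempty := by
    rw [Finset.nonempty_iff_ne_empty]
    intro h0
    exact hne (symmDiff_eq_bot.1 h0)
  have h2 : UJ b (symmDiff J J') = ∅ := by
    rw [Finset.eq_empty_iff_forall_notMem]
    intro π hπ
    rw [mem_UJ, sum_sd] at hπ
    have h3 : (π ∈ UJ b J ↔ π ∈ UJ b J') := by rw [h]
    rw [mem_UJ, mem_UJ] at h3
    have key : ∀ x y : ZMod 2, (x ≠ 0 ↔ y ≠ 0) → x + y = 0 := by decide
    exact hπ (key _ _ h3)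
  have h4 := UJ_sq hb (symmDiff J J')
  rw [h2, prod_empty, mul_one] at h4
  exact hind _ h1 h4

theorem UU_card {b : Fin r → ZI} (hb : ∀ i, PS (b i))
    (hind : ∀ J : Finset (Fin r), J.Nonempty → ¬ IsSquare (∏ i ∈ J, b i)) :
    (UU b).card = 2 ^ r := by
  unfold UU
  rw [Finset.card_image_of_injective _ (UJ_inj hb hind), Finset.card_univ, Fintype.card_finset,
    Fintype.card_fin]

/-- the criterion for all the `D b^J` -/
def JK (b : Fin r → ZI) (D : ZI) : Prop :=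
  ∀ (J : Finset (Fin r)) (D' : ZI), PS D' → IsSquare (D * D' * ∏ i ∈ J, b i) → Gd (PD D')

theorem JK_iff {b : Fin r → ZI} (hb : ∀ i, PS (b i)) {D : ZI} (hD : PS D) :
    JK b D ↔ GdJ (UU b) (PD D) := by
  constructor
  · intro h U hU
    unfold UU at hU
    obtain ⟨J, -, rfl⟩ := mem_image.1 hU
    obtain ⟨p1, p2⟩ := PS_prod (DJ_pp hb hD J)
    have h1 := h J _ p1 (DJ_sq hb hD J)
    rwa [p2] at h1
  · intro h J D' hD' hs
    rw [DJ_uniq hb hD hD' J hs]
    exact h _ (mem_image_of_mem _ (mem_univ J))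

/-- **the joint law for the elements** -/
theorem t_JE {R : Finset ℕ} (hR : S_LOW R) {b : Fin r → ZI} (hb : ∀ i, PS (b i))
    (hind : ∀ J : Finset (Fin r), J.Nonempty → ¬ IsSquare (∏ i ∈ J, b i)) :
    Tendsto (fun X : ℕ => ({D : ZI | nrm D ≤ X ∧ ClsE R D ∧ JK b D}.ncard : ℝ) /
      ({D : ZI | nrm D ≤ X ∧ ClsE R D}.ncard : ℝ)) atTop (nhds (c2 ^ 2 ^ r)) := by
  have h := t_JN hR (univ.biUnion fun i => PD (b i)) (fun u hu => by
    obtain ⟨i, -, hi⟩ := mem_biUnion.1 hu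
    exact ((mem_PD (hb i).ne).1 hi).1) (UU b) (fun U hU => by
    unfold UU at hU
    obtain ⟨J, -, rfl⟩ := mem_image.1 hU
    unfold UJ
    exact filter_subset _ _)
  rw [UU_card hb hind] at h
  refine h.congr fun X => ?_
  rw [Pool.Agent.H691.GZ.NS.card_cls, ← Pool.Agent.H691.GZ.NS.card_eq R X (GdJ (UU b))]
  congr 3
  ext D
  simp only [Set.mem_ofPred_eq]
  refine and_congr_right fun _ => and_congr_right fun hc => ?_
  exact (JK_iff hb hc.ps).symm

end Pool.Agent.H691.GJ
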