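import Pool.Agent.Run7.h691.GZ.CNT

/-! GJ: the mean value of the multiplicative function with values `1` and `1/2` on the primes
with symbol `1` and `-1`. -/

set_option autoImplicit false
set_option linter.unusedVariables false

open scoped Classical

namespace Pool.Agent.H691.GJ.HQ

open Finset
open H385 (ZI nrm)
open Pool.Agent.Y699 hiding kk
open Pool.Agent.H304R2.EC.A1 (prim prim_ne_zero)

/-- products of sets of prime divisors divide -/
theorem prod_dvd {n : ZI} (hn : n ≠ 0) {S : Finset ZI} (hS : S ⊆ PD n) : (∏ π ∈ S, π) ∣ n := by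
  refine Finset.prod_dvd_of_coprime ?_ ?_
  · intro a ha b hb hab
    exact ((mem_PD hn).1 (hS (Finset.mem_coe.1 ha))).1.cop
      ((mem_PD hn).1 (hS (Finset.mem_coe.1 hb))).1 hab
  · intro π hπ
    exact ((mem_PD hn).1 (hS hπ)).2

/-- the function on the squarefree elements -/
noncomputable def xs (h : ZI → ℝ) (d : ZI) : ℝ := if PS d then mf h d else 0

theorem xs_nonneg {h : ZI → ℝ} (h0 : ∀ π, 0 ≤ h π) (d : ZI) : 0 ≤ xs h d := by
  unfold xs
  split_ifs
  · exact mf_nonneg h0 d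
  · exact le_refl _

theorem conv1 {h : ZI → ℝ} (h0 : ∀ π, 0 ≤ h π) {n : ZI} (hn : n ≠ 0) :
    mf (fun π => 1 + h π) n ≤ ∑ d ∈ DP n, xs h d := by
  have e1 : mf (fun π => 1 + h π) n = ∑ S ∈ (PD n).powerset, ∏ π ∈ S, h π := by
    unfold mf
    rw [Finset.prod_one_add]
  rw [e1]
  have hpp : ∀ S ∈ (PD n).powerset, ∀ π ∈ S, PP π := fun S hS π hπ =>
    ((mem_PD hn).1 (Finset.mem_powerset.1 hS hπ)).1
  refine sum_le_inj (fun S => ∏ π ∈ S, π) ?_ ?_ ?_ ?_
  · intro S hS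
    rw [mem_DP hn]
    exact ⟨(PS_prod (hpp S hS)).1.prm, prod_dvd hn (Finset.mem_powerset.1 hS)⟩
  · intro S hS T hT hST
    have h1 := (PS_prod (hpp S hS)).2
    have h2 := (PS_prod (hpp T hT)).2
    have h3 := congrArg PD hST
    rwa [h1, h2] at h3
  · intro S hS
    unfold xs mf
    rw [if_pos (PS_prod (hpp S hS)).1, (PS_prod (hpp S hS)).2]
  · intro d _
    exact xs_nonneg h0 d

theorem conv2 {h : ZI → ℝ} (h0 : ∀ π, 0 ≤ h π) (V : ℕ) :
    ∑ n ∈ PB V, mf (fun π => 1 + h π) n / nrm n ≤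
      (∑ k ∈ PB V, (1 : ℝ) / nrm k) * ∑ d ∈ SB V, mf h d / nrm d := by
  have e1 : ∑ n ∈ PB V, mf (fun π => 1 + h π) n / nrm n ≤
      ∑ n ∈ PB V, (∑ d ∈ DP n, xs h d) / nrm n := by
    refine sum_le_sum fun n hn => ?_
    exact div_le_div_of_nonneg_right (conv1 h0 (prim_ne_zero (mem_PB.1 hn).2)) (Nat.cast_nonneg _)
  rw [conv_sum] at e1
  refine e1.trans ?_
  rw [sum_mul]
  refine sum_le_sum fun k hk => ?_
  refine mul_le_mul_of_nonneg_left ?_ (by positivity)
  have e2 : ∑ d ∈ PB (V / nrm k), xs h d / nrm d ≤ ∑ d ∈ PB V, xs h d / nrm d := by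
    refine sum_le_sum_of_subset_of_nonneg ?_ fun d _ _ =>
      div_nonneg (xs_nonneg h0 d) (Nat.cast_nonneg _)
    intro d hd
    rw [mem_PB] at hd ⊢
    exact ⟨hd.1.trans (Nat.div_le_self _ _), hd.2⟩
  refine e2.trans (le_of_eq ?_)
  have e3 : SB V = (PB V).filter fun d => PS d := by
    ext d
    rw [mem_SB, mem_filter, mem_PB]
    exact ⟨fun h => ⟨⟨h.1, h.2.prm⟩, h.2⟩, fun h => ⟨h.1.1, h.2⟩⟩
  rw [e3, sum_filter]
  refine sum_congr rfl fun d _ => ?_
  unfold xs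
  split_ifs
  · rfl
  · exact zero_div _

theorem jac3 (G π : ZI) : (jac G π : ℝ) = 0 ∨ (jac G π : ℝ) = 1 ∨ (jac G π : ℝ) = -1 := by
  rcases jac_cases G π with h | h | h <;> rw [h] <;> simp

theorem half_sum {G : ZI} (hG : PS G) (h1 : G ≠ 1) {T : ℕ} (hT : 1 ≤ T) :
    ∑ n ∈ SB T, mf (fun π => (1 + (jac G π : ℝ)) / 2) n / nrm n ≤
      80 * Real.sqrt (lg (nrm G)) * Real.sqrt (lg T) := by
  have hl := one_le_lg (nrm G)
  have hA : ∑ n ∈ PB (T ^ 2), mf (fun π => 2 * ((1 + (jac G π : ℝ)) / 2)) n / nrm n ≤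
      (6400 * lg (nrm G)) * lg T := by
    have e1 : (fun π : ZI => 2 * ((1 + (jac G π : ℝ)) / 2)) = fun π => 1 + (jac G π : ℝ) := by
      funext π; ring
    rw [e1]
    have e2 : ∑ n ∈ PB (T ^ 2), mf (fun π => 1 + (jac G π : ℝ)) n / nrm n ≤
        ∑ n ∈ PB (T ^ 2), (∑ d ∈ DP n, (jac G d : ℝ)) / nrm n := by
      refine sum_le_sum fun n hn => ?_
      exact div_le_div_of_nonneg_right (conv_le hG.ne n (mem_PB.1 hn).2) (Nat.cast_nonneg _)
    rw [conv_sum] at e2
    refine e2.trans ?_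
    have e3 : ∀ k ∈ PB (T ^ 2), (1 / (nrm k : ℝ)) * ∑ d ∈ PB (T ^ 2 / nrm k), (jac G d : ℝ) / nrm d ≤
        (171 * lg (nrm G)) * (1 / nrm k) := by
      intro k _
      rw [mul_comm]
      exact mul_le_mul_of_nonneg_right ((le_abs_self _).trans (chs_log hG h1 _)) (by positivity)
    refine (sum_le_sum e3).trans ?_
    rw [← mul_sum]
    have e4 := hsum (T ^ 2)
    have e5 := lg_sq T
    have e6 := lg_pos T
    have e7 : (171 * lg (nrm G)) * ∑ k ∈ PB (T ^ 2), (1 : ℝ) / nrm k ≤ (171 * lg (nrm G)) * (36 * lg T) := by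
      apply mul_le_mul_of_nonneg_left _ (by linarith)
      linarith
    refine e7.trans ?_
    have : 0 ≤ lg (nrm G) * lg T := by positivity
    nlinarith
  have h0 : ∀ π, 0 ≤ (1 + (jac G π : ℝ)) / 2 := fun π => by
    rcases jac3 G π with h | h | h <;> rw [h] <;> norm_num
  have h2 := (hall2 (g := fun π => (1 + (jac G π : ℝ)) / 2) h0
    (fun π => by rcases jac3 G π with h | h | h <;> simp only [h] <;> norm_num) T).trans hA
  have h3 : 0 ≤ 80 * Real.sqrt (lg (nrm G)) * Real.sqrt (lg T) := by positivity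
  have h4 : (80 * Real.sqrt (lg (nrm G)) * Real.sqrt (lg T)) ^ 2 = (6400 * lg (nrm G)) * lg T := by
    rw [mul_pow, mul_pow, Real.sq_sqrt (by linarith), Real.sq_sqrt (lg_pos T).le]
    norm_num
  rw [← h4] at h2
  exact le_of_sq_le_sq h2 h3

/-- **the mean value with exponent `1/4`** -/
theorem hallQ {G : ZI} (hG : PS G) (h1 : G ≠ 1) : ∃ C : ℝ, 0 ≤ C ∧ ∀ T : ℕ,
    ∑ n ∈ SB T, mf (fun π => (3 + (jac G π : ℝ)) / 4) n ≤
      C * (T * (lg T) ^ (-(1 / 4) : ℝ)) := by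
  set K : ℝ := 80 * Real.sqrt (lg (nrm G)) * 2 with hK
  have hlG := one_le_lg (nrm G)
  have hsG : 1 ≤ Real.sqrt (lg (nrm G)) := Real.one_le_sqrt.2 hlG
  have hK0 : 160 ≤ K := by rw [hK]; linarith
  refine ⟨126 * K, by positivity, fun T => ?_⟩
  set g : ZI → ℝ := fun π => (3 + (jac G π : ℝ)) / 4 with hg
  have h0 : ∀ π, 0 ≤ g π := fun π => by
    rcases jac3 G π with h | h | h <;> simp only [hg, h] <;> norm_num
  have h1' : ∀ π, g π ≤ 1 := fun π => by
    rcases jac3 G π with h | h | h <;> simp only [hg, h] <;> norm_num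
  have hh0 : ∀ π, 0 ≤ (1 + (jac G π : ℝ)) / 2 := fun π => by
    rcases jac3 G π with h | h | h <;> rw [h] <;> norm_num
  rcases Nat.eq_zero_or_pos T with hz | hT
  · have : SB T = ∅ := by
      rw [eq_empty_iff_forall_notMem]
      intro x hx
      rw [mem_SB] at hx
      have := nrm_pos' hx.2.ne
      omega
    rw [this, sum_empty, hz]
    simp
  by_cases hT1 : T = 1
  · have h2 : ∑ n ∈ SB T, mf g n ≤ 9 := by
      refine (sum_le_sum fun n _ => mf_le_one h0 h1' n).trans ?_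
      rw [sum_const, nsmul_eq_mul, mul_one, hT1]
      refine (card_SB_le le_rfl).trans (le_of_eq (by norm_num))
    have h3 : lg 1 = 1 := by unfold lg; simp
    refine h2.trans ?_
    rw [hT1, h3, Real.one_rpow]
    push_cast
    linarith
  have hT2 : 2 ≤ T := by omega
  have T0 : (0 : ℝ) < T := by exact_mod_cast hT
  set l := lg T with hl
  have hl1 : 1 ≤ l := one_le_lg T
  have hl0 : 0 < l := by linarith
  set S := ∑ n ∈ SB T, mf g n with hS
  set S1 := ∑ n ∈ SB T, mf g n / nrm n with hS1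
  have hS0 : 0 ≤ S := sum_nonneg fun n _ => mf_nonneg h0 n
  have hS10 : 0 ≤ S1 := sum_nonneg fun n _ => div_nonneg (mf_nonneg h0 n) (Nat.cast_nonneg _)
  have k1 : S * Real.log T ≤ 7 * T * S1 := hall1 h0 h1' hT
  have k2 : S1 ^ 2 ≤ ∑ n ∈ PB (T ^ 2), mf (fun π => 2 * g π) n / nrm n := hall2 h0 h1' T
  have e1 : (fun π : ZI => 2 * g π) = fun π => 1 + (1 + (jac G π : ℝ)) / 2 := by
    funext π
    rw [hg]
    ring
  rw [e1] at k2
  have k3 := k2.trans (conv2 hh0 (T ^ 2))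
  have k4 := half_sum hG h1 (T := T ^ 2) (Nat.one_le_pow _ _ hT)
  have k5 : Real.sqrt (lg (T ^ 2)) ≤ 2 * Real.sqrt l := by
    have h5 := lg_sq T
    calc Real.sqrt (lg (T ^ 2)) ≤ Real.sqrt (4 * l) := by
          apply Real.sqrt_le_sqrt
          linarith
      _ = 2 * Real.sqrt l := by
          rw [Real.sqrt_mul (by norm_num)]
          congr 1
          rw [show (4 : ℝ) = 2 ^ 2 by norm_num]
          exact Real.sqrt_sq (by norm_num)
  have k6 : ∑ k ∈ PB (T ^ 2), (1 : ℝ) / nrm k ≤ 36 * l := by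
    have e4 := hsum (T ^ 2)
    have e5 := lg_sq T
    linarith
  have k7 : S1 ^ 2 ≤ (36 * l) * (K * Real.sqrt l) := by
    refine k3.trans (mul_le_mul k6 (k4.trans ?_) ?_ (by positivity))
    · rw [hK]
      have := mul_le_mul_of_nonneg_left k5 (show 0 ≤ 80 * Real.sqrt (lg (nrm G)) by positivity)
      linarith
    · exact sum_nonneg fun n _ => div_nonneg (mf_nonneg hh0 n) (Nat.cast_nonneg _)
  set u : ℝ := l ^ (1 / 4 : ℝ) with hu
  have hu0 : 0 < u := Real.rpow_pos_of_pos hl0 _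
  have hu4 : u ^ 4 = l := by
    rw [hu, ← Real.rpow_natCast, ← Real.rpow_mul hl0.le]
    norm_num
  have hu2 : Real.sqrt l = u ^ 2 := by
    rw [← hu4, show u ^ 4 = (u ^ 2) ^ 2 by ring]
    exact Real.sqrt_sq (by positivity)
  have hui : l ^ (-(1 / 4) : ℝ) = u⁻¹ := by
    rw [Real.rpow_neg hl0.le]
  have k8 : S1 ≤ 6 * K * u ^ 3 := by
    refine le_of_sq_le_sq (k7.trans ?_) (by positivity)
    rw [hu2, ← hu4]
    have : (6 * K * u ^ 3) ^ 2 = (36 * u ^ 4) * (K * u ^ 2) * K := by ring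
    rw [this]
    refine le_mul_of_one_le_right (by positivity) (by linarith)
  have k9 := lg_le_log hT2
  have k10 : S * l ≤ 21 * T * (6 * K * u ^ 3) := by
    calc S * l ≤ S * (3 * Real.log T) := mul_le_mul_of_nonneg_left k9 hS0
      _ = 3 * (S * Real.log T) := by ring
      _ ≤ 3 * (7 * T * S1) := by linarith
      _ ≤ 3 * (7 * T * (6 * K * u ^ 3)) := by
          have := mul_le_mul_of_nonneg_left k8 (show (0 : ℝ) ≤ 7 * T by positivity)
          linarith
      _ = 21 * T * (6 * K * u ^ 3) := by ring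
  rw [hui, ← div_eq_mul_inv, ← mul_div_assoc, le_div_iff₀ hu0]
  have hu3 : 0 < u ^ 3 := by positivity
  refine le_of_mul_le_mul_right ?_ hu3
  calc S * u * u ^ 3 = S * l := by rw [← hu4]; ring
    _ ≤ 21 * T * (6 * K * u ^ 3) := k10
    _ = 126 * K * T * u ^ 3 := by ring

end Pool.Agent.H691.GJ.HQ
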