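import Pool.Agent.Run7.h691.GJ.Gen
import Pool.Agent.Run7.h691.GJ.Hq
import Pool.Agent.Run7.h691.GZ.Few

/-! GJ: few sets have labels which are degenerate or do not separate the masks. -/

set_option autoImplicit false
set_option linter.unusedVariables false

open scoped Classical

namespace Pool.Agent.H691.GJ.FW

open Finset Filter
open H385 (ZI nrm)
open Pool.Agent.Y699 hiding kk sg
open Pool.Agent.Y703.CX (eL zz kk)
open Pool.Agent.H691.GZ
open Pool.Agent.H691.GZ.BF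
open Pool.Agent.H691.GJ.HQ (jac3 hallQ)
open Pool.Agent.H691.GJ

/-- the basic quantity -/
noncomputable def tl (T : ℕ) : ℝ := (T : ℝ) * (lg T) ^ (-(1 / 4) : ℝ)

theorem tl_nonneg (T : ℕ) : 0 ≤ tl T :=
  mul_nonneg (Nat.cast_nonneg _) (Real.rpow_nonneg (zero_le_one.trans (one_le_lg _)) _)

theorem half_le4 (T : ℕ) : (T : ℝ) / Real.sqrt (lg T) ≤ tl T := by
  have h1 := one_le_lg T
  unfold tl
  rw [div_eq_mul_inv, Real.sqrt_eq_rpow, ← Real.rpow_neg (by linarith)]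
  exact mul_le_mul_of_nonneg_left (Real.rpow_le_rpow_of_exponent_le h1 (by norm_num))
    (Nat.cast_nonneg _)

theorem lg_mul_le {a b : ℕ} (ha : 0 < a) (hb : 0 < b) : lg (a * b) ≤ 2 * lg b * lg a := by
  have h1 : lg (a * b) ≤ lg a + lg b := by
    unfold lg
    have h2 : Nat.log 2 (a * b) < (Nat.log 2 a + 1) + (Nat.log 2 b + 1) := by
      apply Nat.log_lt_of_lt_pow (by positivity)
      rw [pow_add]
      exact Nat.mul_lt_mul'' (Nat.lt_pow_succ_log_self (by norm_num) a)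
        (Nat.lt_pow_succ_log_self (by norm_num) b)
    have h3 : (Nat.log 2 (a * b) : ℝ) + 1 ≤ (Nat.log 2 a + 1) + (Nat.log 2 b + 1) := by
      exact_mod_cast h2
    exact h3
  have h4 := one_le_lg a
  have h5 := one_le_lg b
  nlinarith

theorem pN_un (S₀ W : Finset ZI) (h : ∀ u ∈ S₀ ∪ W, PP u) : pN (S₀ ∪ W) ≤ pN S₀ * pN W := by
  have h1 : pN (S₀ ∪ W) * pN (S₀ ∩ W) = pN S₀ * pN W := by
    unfold pN
    exact Finset.prod_union_inter
  have h2 : 0 < pN (S₀ ∩ W) := pN_pos fun u hu =>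
    h u (Finset.mem_union_left _ (Finset.mem_inter.1 hu).1)
  rw [← h1]
  exact Nat.le_mul_of_pos_right _ h2

/-- the symbol of the product -/
theorem jac_sum {A : Finset ZI} (hA : ∀ u ∈ A, PP u) {π : ZI} (hπ : PP π) (hn : π ∉ A) :
    (jac (∏ u ∈ A, u) π : ℝ) = sg (∑ u ∈ A, qa u π) := by
  have a2 := (PS_prod hA).2
  unfold jac
  rw [a2, EQ.sg_sum]
  push_cast
  refine prod_congr rfl fun u hu => ?_
  refine (sg_qa fun hdv => ?_).symm
  have := (hA u hu).eq_of_dvd hπ hdv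
  subst this
  exact hn hu

theorem prod_ne_one {A : Finset ZI} (hA : ∀ u ∈ A, PP u) (hne : A.Nonempty) :
    ∏ u ∈ A, u ≠ 1 := by
  intro h
  have a2 := (PS_prod hA).2
  rw [h, PD_one] at a2
  exact hne.ne_empty a2.symm

section cnt
variable {R : Finset ℕ} {X : ℕ} {W S₀ : Finset ZI}

/-- the sets with degenerate labels -/
theorem deg_count {z : ℕ} (hS₀ : ∀ u ∈ S₀, PP u ∧ nrm u ≤ z) (hW : ∀ u ∈ W, PP u ∧ nrm u ≤ z)
    (A : Finset ZI) (hA : A ⊆ S₀ ∪ W) (hne : A.Nonempty)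
    (F : Finset (Finset ZI)) (hF : ∀ S ∈ F, (S ∈ SS R X ∧ sm z S = S₀) ∧ Dg A (la z S)) :
    (F.card : ℝ) ≤ 3360 * lg (pN W) * lg (pN S₀) * tl (X / pN S₀) := by
  have hun : ∀ u ∈ S₀ ∪ W, PP u ∧ nrm u ≤ z := by
    intro u hu
    rcases Finset.mem_union.1 hu with h | h
    · exact hS₀ u h
    · exact hW u h
  have hAp : ∀ u ∈ A, PP u := fun u hu => (hun u (hA hu)).1
  obtain ⟨a1, a2⟩ := PS_prod (S := A) hAp
  set a := ∏ π ∈ A, π with ha
  have hab : a ≠ 1 := prod_ne_one hAp hne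
  have hval : ∀ S ∈ F, ∀ π ∈ la z S, jac a π = 1 := by
    intro S hS π hπ
    obtain ⟨⟨h1, h2⟩, h3⟩ := hF S hS
    have hπq : PP π ∧ ¬ nrm π ≤ z := by
      unfold la at hπ
      rw [mem_filter] at hπ
      unfold SS at h1
      rw [mem_filter] at h1
      exact ⟨h1.2.1.1 π hπ.1, hπ.2⟩
    have h5 : (jac a π : ℝ) = 1 := by
      rw [ha, jac_sum hAp hπq.1 fun h => hπq.2 (hun π (hA h)).2, h3 π hπ, EQ.sg_zero]
    exact_mod_cast h5
  have h := fiber_le R X z S₀ (fun u hu => (hS₀ u hu).1) F (fun S hS => (hF S hS).1)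
    (fun π => (1 + (jac a π : ℝ)) / 2) (fun π => by
      rcases jac3 a π with h | h | h <;> simp only [h] <;> norm_num) 1 (fun S hS => by
      refine le_of_eq (prod_eq_one fun π hπ => ?_).symm
      rw [hval S hS π hπ]
      norm_num)
  rw [mul_one] at h
  refine h.trans ((hallG a1 hab _).trans ?_)
  have hnn : nrm a ≤ pN S₀ * pN W := by
    rw [ha, nrm_prod]
    refine le_trans ?_ (pN_un S₀ W fun u hu => (hun u hu).1)
    unfold pN
    refine prod_le_prod_of_subset_of_one_le' hA fun u hu _ => ?_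
    exact nrm_pos' (hun u hu).1.ne
  have h4 : Real.sqrt (lg (nrm a)) ≤ 2 * lg (pN W) * lg (pN S₀) := by
    calc Real.sqrt (lg (nrm a)) ≤ lg (nrm a) := by
          rw [Real.sqrt_le_left (by have := one_le_lg (nrm a); linarith)]
          have := one_le_lg (nrm a)
          nlinarith
      _ ≤ lg (pN S₀ * pN W) := lg_mono hnn
      _ ≤ _ := lg_mul_le (pN_pos fun u hu => (hS₀ u hu).1) (pN_pos fun u hu => (hW u hu).1)
  have hTl := tl_nonneg (X / pN S₀)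
  have h5 := half_le4 (X / pN S₀)
  have h6 : 0 ≤ ((X / pN S₀ : ℕ) : ℝ) / Real.sqrt (lg (X / pN S₀)) := by positivity
  have h7 : 0 ≤ 2 * lg (pN W) * lg (pN S₀) := by
    have := lg_pos (pN S₀)
    have := lg_pos (pN W)
    positivity
  calc 1680 * Real.sqrt (lg (nrm a)) * (((X / pN S₀ : ℕ) : ℝ) / Real.sqrt (lg (X / pN S₀)))
      ≤ 1680 * (2 * lg (pN W) * lg (pN S₀)) * tl (X / pN S₀) := by gcongr
    _ = _ := by ring

/-- all degenerate labels -/
theorem deg_all {z : ℕ} (hS₀ : ∀ u ∈ S₀, PP u ∧ nrm u ≤ z) (hW : ∀ u ∈ W, PP u ∧ nrm u ≤ z)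
    (F : Finset (Finset ZI)) (hF : ∀ S ∈ F, (S ∈ SS R X ∧ sm z S = S₀) ∧
      ¬ Nd (S₀ ∪ W) (la z S)) :
    (F.card : ℝ) ≤ (3360 * lg (pN W) * 2 ^ W.card) * 4 ^ S₀.card * lg (pN S₀) *
      tl (X / pN S₀) := by
  set P := (S₀ ∪ W).powerset.filter fun p => p.Nonempty with hP
  have hsub : F ⊆ P.biUnion fun p => F.filter fun S => Dg p (la z S) := by
    intro S hS
    obtain ⟨A, hA, hAB, hDg⟩ := notNd (hF S hS).2
    rw [mem_biUnion]
    refine ⟨A, ?_, ?_⟩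
    · rw [hP, mem_filter, mem_powerset]
      exact ⟨hA, hAB⟩
    · rw [mem_filter]
      exact ⟨hS, hDg⟩
  have h1 : (F.card : ℝ) ≤ ∑ p ∈ P, ((F.filter fun S => Dg p (la z S)).card : ℝ) := by
    exact_mod_cast (card_le_card hsub).trans card_biUnion_le
  have h2 : ∀ p ∈ P, ((F.filter fun S => Dg p (la z S)).card : ℝ) ≤
      3360 * lg (pN W) * lg (pN S₀) * tl (X / pN S₀) := by
    intro p hp
    rw [hP, mem_filter, mem_powerset] at hp
    refine deg_count (R := R) hS₀ hW p hp.1 hp.2 _ ?_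
    intro S hS
    rw [mem_filter] at hS
    exact ⟨(hF S hS.1).1, hS.2⟩
  have h3 : (P.card : ℝ) ≤ 2 ^ W.card * 4 ^ S₀.card := by
    have h31 : P.card ≤ 2 ^ (S₀ ∪ W).card := by
      refine (card_filter_le _ _).trans (le_of_eq ?_)
      rw [card_powerset]
    have h32 : (2 : ℕ) ^ (S₀ ∪ W).card ≤ 2 ^ (S₀.card + W.card) :=
      Nat.pow_le_pow_right (by norm_num) (card_union_le _ _)
    have h33 : (2 : ℕ) ^ (S₀.card + W.card) ≤ 2 ^ W.card * 4 ^ S₀.card := by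
      rw [pow_add, mul_comm]
      exact Nat.mul_le_mul_left _ (Nat.pow_le_pow_left (by norm_num) _)
    exact_mod_cast h31.trans (h32.trans h33)
  have hTl := tl_nonneg (X / pN S₀)
  have hlg := lg_pos (pN S₀)
  have hlg2 := lg_pos (pN W)
  calc (F.card : ℝ) ≤ ∑ p ∈ P, 3360 * lg (pN W) * lg (pN S₀) * tl (X / pN S₀) :=
        h1.trans (sum_le_sum h2)
    _ = P.card * (3360 * lg (pN W) * lg (pN S₀) * tl (X / pN S₀)) := by
        rw [sum_const, nsmul_eq_mul]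
    _ ≤ (2 ^ W.card * 4 ^ S₀.card) * (3360 * lg (pN W) * lg (pN S₀) * tl (X / pN S₀)) :=
        mul_le_mul_of_nonneg_right h3 (by positivity)
    _ = _ := by ring

/-- from the weighted sum to the count -/
theorem wt_count (r : ℕ) (hS₀ : ∀ u ∈ S₀, PP u) (c : ℝ) (hc : 0 ≤ c) (n : ℝ) (hn : 0 ≤ n)
    (h : n * (1 / 2 : ℝ) ^ (2 * (S₀ ∪ W).card + r) ≤ c * tl (X / pN S₀)) :
    n ≤ (c * 2 ^ (2 * W.card + r)) * 4 ^ S₀.card * lg (pN S₀) * tl (X / pN S₀) := by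
  have hlg := one_le_lg (pN S₀)
  have hTl := tl_nonneg (X / pN S₀)
  have h3 : (2 : ℝ) ^ (2 * (S₀ ∪ W).card + r) * (1 / 2) ^ (2 * (S₀ ∪ W).card + r) = 1 := by
    rw [← mul_pow]
    norm_num
  have h4 : (2 : ℝ) ^ (2 * (S₀ ∪ W).card + r) ≤ 2 ^ (2 * W.card + r) * 4 ^ S₀.card := by
    have e : (2 : ℝ) ^ (2 * W.card + r) * 4 ^ S₀.card = 2 ^ (2 * W.card + r + 2 * S₀.card) := by
      rw [pow_add _ (2 * W.card + r), pow_mul 2 2 S₀.card]
      norm_num
    rw [e]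
    refine pow_le_pow_right₀ (by norm_num) ?_
    have := card_union_le S₀ W
    omega
  calc n = (2 : ℝ) ^ (2 * (S₀ ∪ W).card + r) * (n * (1 / 2) ^ (2 * (S₀ ∪ W).card + r)) := by
        linear_combination (-n) * h3
    _ ≤ (2 : ℝ) ^ (2 * (S₀ ∪ W).card + r) * (c * tl (X / pN S₀)) :=
        mul_le_mul_of_nonneg_left h (by positivity)
    _ ≤ (2 ^ (2 * W.card + r) * 4 ^ S₀.card) * (c * tl (X / pN S₀)) :=
        mul_le_mul_of_nonneg_right h4 (by positivity)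
    _ = (c * 2 ^ (2 * W.card + r)) * 4 ^ S₀.card * 1 * tl (X / pN S₀) := by ring
    _ ≤ (c * 2 ^ (2 * W.card + r)) * 4 ^ S₀.card * lg (pN S₀) * tl (X / pN S₀) := by gcongr

/-- the sets with few large primes -/
theorem few_count' (r : ℕ) {z : ℕ} (hS₀ : ∀ u ∈ S₀, PP u ∧ nrm u ≤ z)
    (F : Finset (Finset ZI)) (hF : ∀ S ∈ F, (S ∈ SS R X ∧ sm z S = S₀) ∧
      (la z S).card < 2 * (S₀ ∪ W).card + r) :
    (F.card : ℝ) ≤ (126 * 2 ^ (2 * W.card + r)) * 4 ^ S₀.card * lg (pN S₀) *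
      tl (X / pN S₀) := by
  have h := fiber_le R X z S₀ (fun u hu => (hS₀ u hu).1)
    F (fun S hS => (hF S hS).1) (fun _ => 1 / 2) (fun _ => by norm_num)
    ((1 / 2) ^ (2 * (S₀ ∪ W).card + r)) (fun S hS => by
        rw [prod_const]
        exact pow_le_pow_of_le_one (by norm_num) (by norm_num) (hF S hS).2.le)
  refine wt_count r (fun u hu => (hS₀ u hu).1) 126 (by norm_num) _ (Nat.cast_nonneg _) ?_
  exact h.trans ((hall0 (X / pN S₀)).trans
    (mul_le_mul_of_nonneg_left (half_le4 (X / pN S₀)) (by norm_num)))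

/-- the constant for a mask -/
noncomputable def cE (e : Finset ZI) : ℝ :=
  if h : PS (∏ u ∈ e, u) ∧ ∏ u ∈ e, u ≠ 1 then Classical.choose (hallQ h.1 h.2) else 0

theorem cE_nonneg (e : Finset ZI) : 0 ≤ cE e := by
  unfold cE
  split_ifs with h
  · exact (Classical.choose_spec (hallQ h.1 h.2)).1
  · exact le_refl _

theorem cE_spec {e : Finset ZI} (he : ∀ u ∈ e, PP u) (hne : e.Nonempty) (T : ℕ) :
    ∑ n ∈ SB T, mf (fun π => (3 + (jac (∏ u ∈ e, u) π : ℝ)) / 4) n ≤ cE e * tl T := by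
  have h : PS (∏ u ∈ e, u) ∧ ∏ u ∈ e, u ≠ 1 := ⟨(PS_prod he).1, prod_ne_one he hne⟩
  unfold cE
  rw [dif_pos h]
  exact (Classical.choose_spec (hallQ h.1 h.2)).2 T

/-- the sets whose labels do not separate a pair of masks -/
theorem sep_count (r : ℕ) {z : ℕ} (hS₀ : ∀ u ∈ S₀, PP u ∧ nrm u ≤ z)
    (hW : ∀ u ∈ W, PP u ∧ nrm u ≤ z) (e : Finset ZI) (heW : e ⊆ W) (hne : e.Nonempty)
    (F : Finset (Finset ZI)) (hF : ∀ S ∈ F, (S ∈ SS R X ∧ sm z S = S₀) ∧
      ((la z S).filter fun p => ∑ u ∈ e, qa u p ≠ 0).card < 2 * (S₀ ∪ W).card + r) :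
    (F.card : ℝ) ≤ (cE e * 2 ^ (2 * W.card + r)) * 4 ^ S₀.card * lg (pN S₀) *
      tl (X / pN S₀) := by
  have hep : ∀ u ∈ e, PP u := fun u hu => (hW u (heW hu)).1
  have h := fiber_le R X z S₀ (fun u hu => (hS₀ u hu).1)
    F (fun S hS => (hF S hS).1) (fun π => (3 + (jac (∏ u ∈ e, u) π : ℝ)) / 4)
    (fun π => by rcases jac3 (∏ u ∈ e, u) π with h | h | h <;> simp only [h] <;> norm_num)
    ((1 / 2) ^ (2 * (S₀ ∪ W).card + r)) (fun S hS => by
        have e1 : ∏ π ∈ la z S, (3 + (jac (∏ u ∈ e, u) π : ℝ)) / 4 =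
            ∏ π ∈ la z S, if ∑ u ∈ e, qa u π ≠ 0 then (1 / 2 : ℝ) else 1 := by
          refine prod_congr rfl fun π hπ => ?_
          have hπq : PP π ∧ ¬ nrm π ≤ z := by
            unfold la at hπ
            rw [mem_filter] at hπ
            have h1 := (hF S hS).1.1
            unfold SS at h1
            rw [mem_filter] at h1
            exact ⟨h1.2.1.1 π hπ.1, hπ.2⟩
          rw [jac_sum hep hπq.1 fun h => hπq.2 (hW π (heW h)).2]
          unfold sg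
          by_cases h1 : ∑ u ∈ e, qa u π = 0
          · rw [if_pos h1, if_neg (not_not.2 h1)]
            norm_num
          · rw [if_neg h1, if_pos h1]
            norm_num
        rw [e1, prod_ite, prod_const_one, mul_one, prod_const]
        refine pow_le_pow_of_le_one (by norm_num) (by norm_num) (hF S hS).2.le)
  refine wt_count r (fun u hu => (hS₀ u hu).1) (cE e) (cE_nonneg e) _ (Nat.cast_nonneg _) ?_
  exact h.trans (cE_spec hep hne _)

end cnt

/-- **few sets are not regular** -/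
theorem t_FEW (R : Finset ℕ) (r : ℕ) (W : Finset ZI) (hW : ∀ u ∈ W, PP u)
    (𝒰 : Finset (Finset ZI)) (hU : ∀ U ∈ 𝒰, U ⊆ W) : ∀ ε : ℝ, 0 < ε → ∃ X₀ : ℕ, ∀ X : ℕ, X₀ ≤ X →
      ∀ F : Finset (Finset ZI), (∀ S ∈ F, S ∈ SS R X ∧ S.card ≤ kk X ∧
        ((∀ u ∈ W, nrm u ≤ zz X) ∧ ¬ NdJ r W 𝒰 (sm (zz X) S) (la (zz X) S))) →
      (F.card : ℝ) ≤ ε * X := by
  set E : Finset (Finset ZI × Finset ZI) := (𝒰 ×ˢ 𝒰).filter fun p => p.1 ≠ p.2 with hE
  set b : ℝ := 3360 * lg (pN W) * 2 ^ W.card + 126 * 2 ^ (2 * W.card + r) +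
    ∑ p ∈ E, cE (symmDiff p.1 p.2) * 2 ^ (2 * W.card + r) with hb
  have hlgW := lg_pos (pN W)
  have hb0 : 0 ≤ b := by
    have : 0 ≤ ∑ p ∈ E, cE (symmDiff p.1 p.2) * 2 ^ (2 * W.card + r) :=
      sum_nonneg fun p _ => mul_nonneg (cE_nonneg _) (by positivity)
    positivity
  have key : ∀ (X : ℕ) (S₀ : Finset ZI), (∀ u ∈ S₀, PP u ∧ nrm u ≤ zz X) → S₀.card ≤ kk X →
      ∀ F : Finset (Finset ZI),
      (∀ S ∈ F, S ∈ SS R X ∧ (S.card ≤ kk X ∧ ((∀ u ∈ W, nrm u ≤ zz X) ∧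
        ¬ NdJ r W 𝒰 (sm (zz X) S) (la (zz X) S))) ∧ sm (zz X) S = S₀) → (F.card : ℝ) ≤
        b * 4 ^ S₀.card * lg (pN S₀) * (((X / pN S₀ : ℕ) : ℝ) *
          (lg (X / pN S₀)) ^ (-(1 / 4) : ℝ)) := by
    intro X S₀ hS₀ _ F hF
    change (F.card : ℝ) ≤ b * 4 ^ S₀.card * lg (pN S₀) * tl (X / pN S₀)
    have hTl := tl_nonneg (X / pN S₀)
    have hlg := lg_pos (pN S₀)
    rcases F.eq_empty_or_nonempty with hFe | ⟨S', hS'⟩
    · rw [hFe, card_empty]
      push_cast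
      positivity
    have hWz : ∀ u ∈ W, PP u ∧ nrm u ≤ zz X := fun u hu =>
      ⟨hW u hu, (hF S' hS').2.1.2.1 u hu⟩
    set F1 := F.filter fun S => ¬ Nd (S₀ ∪ W) (la (zz X) S) with hF1
    set F2 := F.filter fun S => (la (zz X) S).card < 2 * (S₀ ∪ W).card + r with hF2
    set F3 : Finset ZI × Finset ZI → Finset (Finset ZI) := fun p => F.filter fun S =>
      ((la (zz X) S).filter fun q => ∑ u ∈ symmDiff p.1 p.2, qa u q ≠ 0).card <
        2 * (S₀ ∪ W).card + r with hF3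
    have hsub : F ⊆ (F1 ∪ F2) ∪ E.biUnion F3 := by
      intro S hS
      have h := hF S hS
      have hnd := h.2.1.2.2
      rw [h.2.2] at hnd
      by_contra hc
      apply hnd
      rw [mem_union, mem_union, mem_biUnion] at hc
      push Not at hc
      obtain ⟨⟨c1, c2⟩, c3⟩ := hc
      rw [hF1, mem_filter] at c1
      rw [hF2, mem_filter] at c2
      refine ⟨?_, ?_, ?_⟩
      · by_contra hh
        exact c1 ⟨hS, hh⟩
      · by_contra hh
        exact c2 ⟨hS, not_le.1 hh⟩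
      · intro U hU' V hV hUV
        by_contra hh
        refine c3 (U, V) ?_ ?_
        · rw [hE, mem_filter, mem_product]
          exact ⟨⟨hU', hV⟩, hUV⟩
        · rw [hF3, mem_filter]
          exact ⟨hS, not_le.1 hh⟩
    have h0 : (F.card : ℝ) ≤ (F1.card + F2.card) + ∑ p ∈ E, ((F3 p).card : ℝ) := by
      have g := card_le_card hsub
      have g2 := (g.trans (card_union_le _ _)).trans
        (Nat.add_le_add (card_union_le _ _) card_biUnion_le)
      exact_mod_cast g2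
    have h1 : (F1.card : ℝ) ≤ (3360 * lg (pN W) * 2 ^ W.card) * 4 ^ S₀.card * lg (pN S₀) *
        tl (X / pN S₀) := by
      refine deg_all (R := R) hS₀ hWz F1 fun S hS => ?_
      rw [hF1, mem_filter] at hS
      exact ⟨⟨(hF S hS.1).1, (hF S hS.1).2.2⟩, hS.2⟩
    have h2 : (F2.card : ℝ) ≤ (126 * 2 ^ (2 * W.card + r)) * 4 ^ S₀.card * lg (pN S₀) *
        tl (X / pN S₀) := by
      refine few_count' (R := R) r hS₀ F2 fun S hS => ?_
      rw [hF2, mem_filter] at hS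
      exact ⟨⟨(hF S hS.1).1, (hF S hS.1).2.2⟩, hS.2⟩
    have h3 : ∀ p ∈ E, ((F3 p).card : ℝ) ≤ (cE (symmDiff p.1 p.2) * 2 ^ (2 * W.card + r)) *
        4 ^ S₀.card * lg (pN S₀) * tl (X / pN S₀) := by
      intro p hp
      rw [hE, mem_filter, mem_product] at hp
      refine sep_count (R := R) r hS₀ hWz (symmDiff p.1 p.2) ?_ ?_ (F3 p) fun S hS => ?_
      · intro u hu
        rcases Finset.mem_symmDiff.1 hu with h | h
        · exact hU _ hp.1.1 h.1
        · exact hU _ hp.1.2 h.1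
      · rw [Finset.nonempty_iff_ne_empty]
        intro h
        exact hp.2 (symmDiff_eq_bot.1 h)
      · rw [hF3, mem_filter] at hS
        exact ⟨⟨(hF S hS.1).1, (hF S hS.1).2.2⟩, hS.2⟩
    have h4 := sum_le_sum h3
    calc (F.card : ℝ) ≤ (F1.card + F2.card) + ∑ p ∈ E, ((F3 p).card : ℝ) := h0
      _ ≤ ((3360 * lg (pN W) * 2 ^ W.card) * 4 ^ S₀.card * lg (pN S₀) * tl (X / pN S₀) +
          (126 * 2 ^ (2 * W.card + r)) * 4 ^ S₀.card * lg (pN S₀) * tl (X / pN S₀)) +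
          ∑ p ∈ E, (cE (symmDiff p.1 p.2) * 2 ^ (2 * W.card + r)) *
            4 ^ S₀.card * lg (pN S₀) * tl (X / pN S₀) := add_le_add (add_le_add h1 h2) h4
      _ = b * 4 ^ S₀.card * lg (pN S₀) * tl (X / pN S₀) := by
          rw [hb, ← sum_mul, ← sum_mul, ← sum_mul]
          ring
  exact gen4 R 4 b (by norm_num) hb0
    (fun X S => (∀ u ∈ W, nrm u ≤ zz X) ∧ ¬ NdJ r W 𝒰 (sm (zz X) S) (la (zz X) S)) key

end Pool.Agent.H691.GJ.FW
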