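import Pool.Agent.Run7.h691.GJ.Stm
import Pool.Agent.Run7.h691.GZ.Key3

/-!
# GJ-KEY: the sum over the boxes (after `GZ/Key`, `GZ/Key2`, `GZ/Key3`)
-/

set_option autoImplicit false
set_option linter.unusedVariables false

namespace Pool.Agent.H691.GJ.KEY

open Finset
open H385 (ZI nrm)
open Pool.Agent.Y699 (PP PP.ps QB mem_QB nrm_prod PS_prod PD SB mem_SB card_SB_le hsum_SB lg)
open Pool.Agent.Y703.CX (jj XX)
open Pool.Agent.H691.GZ (qa sg Gd Nd prs HB sm la bl S_BIL)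
open Pool.Agent.H691.GZ.KEY (le_XX fcc card_sub nrm_one_le sm_union sm_disj prod_split hb_box
  card_QB_le prs_card sum_inv)
open Pool.Agent.H691.GJ
open scoped Classical

theorem mem_SG {P : Par} {X : ℕ} {S : Finset ZI} :
    S ∈ SG P X ↔ ClG P S ∧ ∏ π ∈ S, nrm π ≤ X := by
  unfold SG
  rw [Finset.mem_filter, Finset.mem_powerset]
  constructor
  · exact fun h => h.2
  · intro h
    refine ⟨fun p hp => ?_, h⟩
    rw [mem_QB]
    have h1 : nrm p ≤ ∏ q ∈ S, nrm q :=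
      Finset.single_le_prod' (f := fun q => nrm q) (fun q hq => nrm_one_le (h.1.1 q hq).1) hp
    exact ⟨h1.trans h.2, (h.1.1 p hp).1⟩

/-- the label of a large prime -/
noncomputable def ph (P : Par) (H : ℕ) (π : ZI) : ℕ := 16 * bl H π + P.m π % 16

theorem ph_div (P : Par) (H : ℕ) (π : ZI) : ph P H π / 16 = bl H π := by
  unfold ph; omega

theorem ph_mod (P : Par) (H : ℕ) (π : ZI) : ph P H π % 16 = P.m π % 16 := by
  unfold ph; omega

/-- the key of a set -/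
noncomputable def ky (P : Par) (z H : ℕ) (S : Finset ZI) : Finset ZI × Finset ℕ :=
  (sm z S, (la z S).image (ph P H))

/-- the primes of a block -/
noncomputable def CC (P : Par) (z H k : ℕ) : Finset ZI :=
  (QB (XX H (k / 16))).filter fun π => z < nrm π ∧ ph P H π = k ∧ P.Q π

theorem mem_CC {P : Par} {z H : ℕ} (hH : 1 ≤ H) {k : ℕ} {π : ZI} :
    π ∈ CC P z H k ↔ (PP π ∧ P.Q π) ∧ z < nrm π ∧ ph P H π = k := by
  unfold CC
  rw [Finset.mem_filter, mem_QB]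
  constructor
  · exact fun h => ⟨⟨h.1.2, h.2.2.2⟩, h.2.1, h.2.2.1⟩
  · intro h
    refine ⟨⟨?_, h.1.1⟩, h.2.1, h.2.2, h.1.2⟩
    have := le_XX hH (nrm_one_le h.1.1)
    have h1 : jj H (nrm π) = k / 16 := by rw [← h.2.2, ph_div]; rfl
    rwa [h1] at this

/-- the conditions on a key -/
def Cd (P : Par) (X K H : ℕ) (S₀ : Finset ZI) (J : Finset ℕ) : Prop :=
  ((∏ π ∈ S₀, P.m π) * ∏ i ∈ J, i) % 16 ∈ P.R ∧
  S₀.card + J.card ≤ K ∧ (∏ π ∈ S₀, nrm π) * ∏ i ∈ J, XX H (i / 16) ≤ X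

theorem ph_inj {P : Par} {H : ℕ} {L : Finset ZI} (h : Set.InjOn (bl H) (L : Set ZI)) :
    Set.InjOn (ph P H) (L : Set ZI) := fun a ha b hb hab => h ha hb (by
  rw [← ph_div P, ← ph_div P, hab])

theorem prod_ph {P : Par} {H : ℕ} {L : Finset ZI}
    (h : Set.InjOn (bl H) (L : Set ZI)) (f : ℕ → ℕ) :
    ∏ i ∈ L.image (ph P H), f i = ∏ p ∈ L, f (ph P H p) :=
  Finset.prod_image fun a ha b hb hab => ph_inj h ha hb hab

theorem prod_mod (P : Par) (L : Finset ZI) (H : ℕ) :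
    (∏ p ∈ L, P.m p) % 16 = (∏ p ∈ L, ph P H p) % 16 := by
  have h1 : (∏ p ∈ L, P.m p) ≡ (∏ p ∈ L, ph P H p) [MOD 16] := by
    induction L using Finset.induction_on with
    | empty => rfl
    | insert a s ha ih =>
      rw [Finset.prod_insert ha, Finset.prod_insert ha]
      exact Nat.ModEq.mul (ph_mod P H a).symm ih
  exact h1

theorem mem_RG {P : Par} {X z H K : ℕ} (hH : 1 ≤ H) {S : Finset ZI} :
    S ∈ RG P X z H K ↔ (∀ p ∈ S, PP p ∧ P.Q p) ∧ Set.InjOn (bl H) (la z S : Set ZI) ∧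
      Cd P X K H (ky P z H S).1 (ky P z H S).2 := by
  unfold RG
  rw [Finset.mem_filter, mem_SG]
  have hk1 : (ky P z H S).1 = sm z S := rfl
  have hk2 : (ky P z H S).2 = (la z S).image (ph P H) := rfl
  rw [hk1, hk2]
  have key : Set.InjOn (bl H) (la z S : Set ZI) →
      ((∏ p ∈ S, P.m p) % 16 =
        ((∏ p ∈ sm z S, P.m p) * ∏ i ∈ (la z S).image (ph P H), i) % 16) ∧
      (S.card = (sm z S).card + ((la z S).image (ph P H)).card) ∧
      (∏ i ∈ (la z S).image (ph P H), XX H (i / 16) = ∏ p ∈ la z S, XX H (bl H p)) := by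
    intro h
    refine ⟨?_, ?_, ?_⟩
    · rw [prod_split z S, prod_ph h (fun i => i), Nat.mul_mod, prod_mod P (la z S) H,
        ← Nat.mul_mod]
    · rw [Finset.card_image_of_injOn (ph_inj h), ← Finset.card_union_of_disjoint (sm_disj z S),
        sm_union]
    · rw [prod_ph h (fun i => XX H (i / 16))]
      exact Finset.prod_congr rfl fun p _ => by rw [ph_div]
  unfold ClG Cd
  constructor
  · rintro ⟨⟨⟨h1, h2⟩, h5⟩, h6, h7, h8⟩
    obtain ⟨k2, k3, k4⟩ := key h6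
    refine ⟨h1, h6, ?_, ?_, ?_⟩
    · rw [← k2]; exact h2
    · rw [← k3]; exact h7
    · rw [k4]; exact h8
  · rintro ⟨h1, h6, h2, h7, h8⟩
    obtain ⟨k2, k3, k4⟩ := key h6
    rw [← k2] at h2
    rw [← k3] at h7
    rw [k4] at h8
    refine ⟨⟨⟨h1, h2⟩, ?_⟩, h6, h7, h8⟩
    refine le_trans ?_ h8
    rw [prod_split z S]
    apply Nat.mul_le_mul_left
    exact Finset.prod_le_prod' fun p hp =>
      le_XX hH (nrm_one_le (h1 p (Finset.mem_filter.1 hp).1).1)

section fill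
variable {P : Par} {z H : ℕ} {S₀ : Finset ZI} {J : Finset ℕ} {p : J → ZI}

theorem sm_fill (hH : 1 ≤ H) (h₀ : ∀ q ∈ S₀, nrm q ≤ z) (hp : ∀ i : J, p i ∈ CC P z H i) :
    sm z (S₀ ∪ univ.image p) = S₀ := by
  ext q
  unfold sm
  rw [Finset.mem_filter, Finset.mem_union, Finset.mem_image]
  constructor
  · rintro ⟨h | ⟨i, -, rfl⟩, h2⟩
    · exact h
    · have := ((mem_CC hH).1 (hp i)).2.1
      omega
  · exact fun h => ⟨Or.inl h, h₀ q h⟩

theorem la_fill (hH : 1 ≤ H) (h₀ : ∀ q ∈ S₀, nrm q ≤ z) (hp : ∀ i : J, p i ∈ CC P z H i) :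
    la z (S₀ ∪ univ.image p) = univ.image p := by
  ext q
  unfold la
  rw [Finset.mem_filter, Finset.mem_union, Finset.mem_image]
  constructor
  · rintro ⟨h | h, h2⟩
    · exact absurd (h₀ q h) h2
    · exact h
  · rintro ⟨i, -, rfl⟩
    have := ((mem_CC hH).1 (hp i)).2.1
    exact ⟨Or.inr ⟨i, Finset.mem_univ _, rfl⟩, by omega⟩

theorem ph_fill (hH : 1 ≤ H) (hp : ∀ i : J, p i ∈ CC P z H i) :
    (univ.image p).image (ph P H) = J := by
  ext k
  rw [Finset.mem_image]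
  constructor
  · rintro ⟨q, hq, rfl⟩
    rw [Finset.mem_image] at hq
    obtain ⟨i, -, rfl⟩ := hq
    rw [((mem_CC hH).1 (hp i)).2.2]
    exact i.2
  · intro hk
    exact ⟨p ⟨k, hk⟩, Finset.mem_image_of_mem _ (Finset.mem_univ _),
      ((mem_CC hH).1 (hp ⟨k, hk⟩)).2.2⟩

theorem ky_fill (hH : 1 ≤ H) (h₀ : ∀ q ∈ S₀, nrm q ≤ z) (hp : ∀ i : J, p i ∈ CC P z H i) :
    ky P z H (S₀ ∪ univ.image p) = (S₀, J) := by
  unfold ky
  rw [sm_fill hH h₀ hp, la_fill hH h₀ hp, ph_fill hH hp]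

end fill

/-- the facts on the key of a regular set -/
theorem key_facts {P : Par} {X z H K : ℕ} (hH : 1 ≤ H) {S₀ : Finset ZI} {J : Finset ℕ}
    (hkey : (S₀, J) ∈ (RG P X z H K).image (ky P z H)) :
    (∀ q ∈ S₀, PP q ∧ P.Q q) ∧ (∀ q ∈ S₀, nrm q ≤ z) ∧
      Set.InjOn (fun i : ℕ => i / 16) (J : Set ℕ) ∧
      Cd P X K H S₀ J ∧ (∀ i ∈ J, z ≤ XX H (i / 16) ∧
        ∃ q : ZI, PP q ∧ z < nrm q ∧ nrm q ≤ X ∧ ph P H q = i) := by
  rw [Finset.mem_image] at hkey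
  obtain ⟨W, hW, hWk⟩ := hkey
  have hWX : ∏ p ∈ W, nrm p ≤ X := by
    unfold RG at hW
    rw [Finset.mem_filter, mem_SG] at hW
    exact hW.1.2
  rw [mem_RG hH, hWk] at hW
  obtain ⟨h1, h2, h3⟩ := hW
  have hS₀ : sm z W = S₀ := congrArg Prod.fst hWk
  have hJ : (la z W).image (ph P H) = J := congrArg Prod.snd hWk
  refine ⟨?_, ?_, ?_, h3, ?_⟩
  · intro q hq
    rw [← hS₀] at hq
    exact h1 q (Finset.mem_filter.1 hq).1
  · intro q hq
    rw [← hS₀] at hq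
    exact (Finset.mem_filter.1 hq).2
  · intro a ha b hb hab
    rw [Finset.mem_coe, ← hJ, Finset.mem_image] at ha hb
    obtain ⟨x, hx, rfl⟩ := ha
    obtain ⟨y, hy, rfl⟩ := hb
    simp only [ph_div] at hab
    have h4 : x = y := h2 (Finset.mem_coe.2 hx) (Finset.mem_coe.2 hy) hab
    rw [h4]
  · intro i hi
    rw [← hJ, Finset.mem_image] at hi
    obtain ⟨q, hq, rfl⟩ := hi
    have hqW := (Finset.mem_filter.1 hq).1
    have hqz := (Finset.mem_filter.1 hq).2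
    have hqp := (h1 q hqW).1
    have hqX : nrm q ≤ X := (Finset.single_le_prod' (f := fun q => nrm q)
      (fun q hq => nrm_one_le (h1 q hq).1) hqW).trans hWX
    refine ⟨?_, q, hqp, by omega, hqX, rfl⟩
    rw [ph_div]
    have h5 : nrm q ≤ XX H (bl H q) := le_XX hH (nrm_one_le hqp)
    omega

theorem key_bij {P : Par} {X z H K : ℕ} (hH : 1 ≤ H) {S₀ : Finset ZI} {J : Finset ℕ}
    (hkey : (S₀, J) ∈ (RG P X z H K).image (ky P z H)) (F : Finset ZI → Prop) :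
    ((Fintype.piFinset fun i : J => CC P z H i).filter fun p => F (S₀ ∪ univ.image p)).card =
      ((RG P X z H K).filter fun S => ky P z H S = (S₀, J) ∧ F S).card := by
  obtain ⟨h₀O, h₀, hJi, hCd, hJf⟩ := key_facts hH hkey
  apply Finset.card_bij (fun (p : J → ZI) _ => S₀ ∪ univ.image p)
  · intro p hp
    rw [Finset.mem_filter, Fintype.mem_piFinset] at hp
    obtain ⟨hp, hP⟩ := hp
    have hk := ky_fill hH h₀ hp
    rw [Finset.mem_filter]
    refine ⟨?_, hk, hP⟩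
    rw [mem_RG hH, hk]
    refine ⟨?_, ?_, hCd⟩
    · intro q hq
      rw [Finset.mem_union, Finset.mem_image] at hq
      rcases hq with hq | ⟨i, -, rfl⟩
      · exact h₀O q hq
      · exact ((mem_CC hH).1 (hp i)).1
    · rw [la_fill hH h₀ hp]
      intro a ha b hb hab
      rw [Finset.mem_coe, Finset.mem_image] at ha hb
      obtain ⟨i, -, rfl⟩ := ha
      obtain ⟨j, -, rfl⟩ := hb
      have h1 := ((mem_CC hH).1 (hp i)).2.2
      have h2 := ((mem_CC hH).1 (hp j)).2.2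
      have h3 : i.1 / 16 = j.1 / 16 := by
        rw [← h1, ← h2, ph_div, ph_div]
        exact hab
      have h4 : i = j := Subtype.ext (hJi (Finset.mem_coe.2 i.2) (Finset.mem_coe.2 j.2) h3)
      rw [h4]
  · intro p hp p' hp' h
    rw [Finset.mem_filter, Fintype.mem_piFinset] at hp hp'
    have h1 := la_fill hH h₀ hp.1
    rw [h, la_fill hH h₀ hp'.1] at h1
    funext i
    have h2 : p i ∈ univ.image p' := by
      rw [h1]
      exact Finset.mem_image_of_mem _ (Finset.mem_univ _)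
    rw [Finset.mem_image] at h2
    obtain ⟨j, -, hj⟩ := h2
    have h3 := ((mem_CC hH).1 (hp.1 i)).2.2
    have h4 := ((mem_CC hH).1 (hp'.1 j)).2.2
    rw [hj, h3] at h4
    rw [← hj, Subtype.ext h4]
  · intro S hS
    rw [Finset.mem_filter] at hS
    obtain ⟨hSR, hSk, hSP⟩ := hS
    rw [mem_RG hH] at hSR
    obtain ⟨hSO, hSI, -⟩ := hSR
    have hk1 : sm z S = S₀ := congrArg Prod.fst hSk
    have hk2 : (la z S).image (ph P H) = J := congrArg Prod.snd hSk
    have hex : ∀ i : J, ∃ q ∈ la z S, ph P H q = i := by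
      rintro ⟨i, hi⟩
      rw [← hk2, Finset.mem_image] at hi
      exact hi
    choose p hp1 hp2 using hex
    have him : univ.image p = la z S := by
      ext q
      rw [Finset.mem_image]
      constructor
      · rintro ⟨i, -, rfl⟩
        exact hp1 i
      · intro hq
        have hjq : ph P H q ∈ J := by
          rw [← hk2]
          exact Finset.mem_image_of_mem _ hq
        exact ⟨⟨ph P H q, hjq⟩, Finset.mem_univ _, ph_inj hSI (Finset.mem_coe.2 (hp1 _))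
          (Finset.mem_coe.2 hq) (hp2 ⟨ph P H q, hjq⟩)⟩
    have hSe : S₀ ∪ univ.image p = S := by rw [him, ← hk1, sm_union]
    refine ⟨p, ?_, hSe⟩
    rw [Finset.mem_filter, Fintype.mem_piFinset, hSe]
    refine ⟨fun i => (mem_CC hH).2 ⟨hSO _ (Finset.mem_filter.1 (hp1 i)).1,
      not_le.1 (Finset.mem_filter.1 (hp1 i)).2, hp2 i⟩, hSP⟩

/-- the statement for the boxes with the decidability of equality as a variable -/
theorem box_dec {G : Finset ZI → Prop} {N : Finset ZI → Finset ZI → Prop} {W : Finset ZI}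
    {cc ε : ℝ} (hB : BXJ G N W cc ε) (ι : Type) [Fintype ι]
    [inst : DecidableEq ι]
    (lo : LinearOrder ι) (C : ι → Finset ZI) (X : ι → ℕ) (κ : ℝ) (S₀ : Finset ZI) (h1 : 0 ≤ κ)
    (h2 : ∀ i, (C i).card ≤ X i) (h3 : HB C X κ) (h4 : ∀ u ∈ S₀, PP u)
    (h5 : ∀ i, ∀ π ∈ C i, PP π ∧ π ∉ S₀ ∪ W) (h6 : ∀ i l, i ≠ l → Disjoint (C i) (C l)) :
    |(((Fintype.piFinset C).filter fun p => N S₀ (univ.image p) ∧
        G (S₀ ∪ univ.image p)).card : ℝ) -
      cc * (((Fintype.piFinset C).filter fun p => N S₀ (univ.image p)).card : ℝ)| ≤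
    ε * (((Fintype.piFinset C).filter fun p => N S₀ (univ.image p)).card : ℝ) +
    2 ^ ((S₀ ∪ W).card * Fintype.card ι + (prs ι).card) * (κ * ∏ j, (X j : ℝ)) := by
  have h := hB ι C X κ S₀ h1 h2 h3 h4 h5 h6
  have e : inst = fun a b => lo.toDecidableEq a b := Subsingleton.elim _ _
  subst e
  exact h

theorem per_key {G : Finset ZI → Prop} {N : Finset ZI → Finset ZI → Prop} {W : Finset ZI}
    {cc ε : ℝ} (hB : BXJ G N W cc ε) (hε : 0 ≤ ε) {C₁ : ℝ}
    (hb1 : ∀ (P Q : Finset ZI) (A B z : ℕ) (c d : ZI → ℝ),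
      (∀ π ∈ P, PP π ∧ nrm π ≤ A) → (∀ ρ ∈ Q, PP ρ ∧ nrm ρ ≤ B) → Disjoint P Q →
      1 ≤ z → z ≤ A → z ≤ B → (∀ π, |c π| ≤ 1) → (∀ ρ, |d ρ| ≤ 1) →
      |∑ π ∈ P, ∑ ρ ∈ Q, c π * d ρ * sg (qa π ρ)| ^ 24 * z ≤ C₁ * ((A : ℝ) * B) ^ 24)
    {P : Par} {X z H k : ℕ} {κ : ℝ} (hWz : ∀ u ∈ W, nrm u ≤ z) (hWk : W.card ≤ k)
    (hH : 1 ≤ H) (hz : 1 ≤ z) (hκ : 0 ≤ κ)
    (h1 : C₁ ≤ κ ^ 24 * z) {S₀ : Finset ZI} {J : Finset ℕ}
    (hkey : (S₀, J) ∈ (RG P X z H k).image (ky P z H)) :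
    |(((RG P X z H k).filter fun S => ky P z H S = (S₀, J) ∧
        (N (sm z S) (la z S) ∧ G S)).card : ℝ) -
      cc * (((RG P X z H k).filter fun S => ky P z H S = (S₀, J) ∧
        N (sm z S) (la z S)).card : ℝ)| ≤
    ε * (((RG P X z H k).filter fun S => ky P z H S = (S₀, J) ∧ True).card : ℝ) +
      (3 ^ (9 * k ^ 2) * κ) * (X * (1 / ((∏ p ∈ S₀, nrm p : ℕ) : ℝ))) := by
  obtain ⟨h₀O, h₀, hJi, hCd, hJf⟩ := key_facts hH hkey
  obtain ⟨c1, c4, c5⟩ := hCd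
  have hcJ : Fintype.card J = J.card := Fintype.card_coe J
  have hCmem : ∀ i : J, ∀ p ∈ CC P z H i, PP p ∧ z < nrm p ∧ nrm p ≤ XX H (i.1 / 16) := by
    intro i p hp
    obtain ⟨k1, k2, k3⟩ := (mem_CC hH).1 hp
    refine ⟨k1.1, k2, ?_⟩
    unfold CC at hp
    rw [Finset.mem_filter, mem_QB] at hp
    exact hp.1.1
  have hdis : ∀ i l : J, i ≠ l → Disjoint (CC P z H (i : ℕ)) (CC P z H (l : ℕ)) := by
    intro i l hil
    rw [Finset.disjoint_left]
    intro p hp hp'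
    have h5 := ((mem_CC hH).1 hp).2.2
    have h6 := ((mem_CC hH).1 hp').2.2
    exact hil (Subtype.ext (h5.symm.trans h6))
  have hzX : ∀ i : J, z ≤ XX H (i.1 / 16) := fun i => (hJf i i.2).1
  have hHB : HB (fun i : J => CC P z H i) (fun i : J => 16 * XX H (i.1 / 16)) κ :=
    hb_box hb1 _ _ hz hκ h1 (fun i => by have := hzX i; omega)
      (fun i p hp => by
        obtain ⟨k1, k2, k3⟩ := hCmem i p hp
        exact ⟨k1, by omega⟩) hdis
  have hcard : ∀ i : J, (CC P z H (i : ℕ)).card ≤ 16 * XX H (i.1 / 16) := by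
    intro i
    refine (Finset.card_filter_le _ _).trans (card_QB_le ?_)
    have := hzX i
    omega
  have hbox := box_dec hB J inferInstance (fun i : J => CC P z H i)
    (fun i : J => 16 * XX H (i.1 / 16)) κ S₀ hκ hcard hHB (fun u hu => (h₀O u hu).1)
    (fun i p hp => by
      obtain ⟨k1, k2, k3⟩ := hCmem i p hp
      refine ⟨k1, fun h => ?_⟩
      rw [Finset.mem_union] at h
      rcases h with h | h
      · have := h₀ p h
        omega
      · have := hWz p h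
        omega) hdis
  have e1 : (((Fintype.piFinset fun i : J => CC P z H i).filter
      fun p => N S₀ (univ.image p) ∧ G (S₀ ∪ univ.image p)).card) =
      ((RG P X z H k).filter fun S => ky P z H S = (S₀, J) ∧
        (N (sm z S) (la z S) ∧ G S)).card := by
    refine Eq.trans (fcc ?_) ((key_bij hH hkey (fun S => N (sm z S) (la z S) ∧ G S)).trans
      (fcc fun _ _ => Iff.rfl))
    intro p hp
    rw [Fintype.mem_piFinset] at hp
    rw [sm_fill hH h₀ hp, la_fill hH h₀ hp]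
  have e2 : (((Fintype.piFinset fun i : J => CC P z H i).filter
      fun p => N S₀ (univ.image p)).card) =
      ((RG P X z H k).filter fun S => ky P z H S = (S₀, J) ∧ N (sm z S) (la z S)).card := by
    refine Eq.trans (fcc ?_) ((key_bij hH hkey (fun S => N (sm z S) (la z S))).trans
      (fcc fun _ _ => Iff.rfl))
    intro p hp
    rw [Fintype.mem_piFinset] at hp
    rw [sm_fill hH h₀ hp, la_fill hH h₀ hp]
  rw [← e1, ← e2]
  have e3 : (((Fintype.piFinset fun i : J => CC P z H i).filter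
      fun p => N S₀ (univ.image p)).card : ℝ) ≤
      (((RG P X z H k).filter fun S => ky P z H S = (S₀, J) ∧ True).card : ℝ) := by
    rw [e2]
    have : (RG P X z H k).filter (fun S => ky P z H S = (S₀, J) ∧ N (sm z S) (la z S)) ⊆
        (RG P X z H k).filter fun S => ky P z H S = (S₀, J) ∧ True := by
      intro S hS
      rw [Finset.mem_filter] at hS ⊢
      exact ⟨hS.1, hS.2.1, trivial⟩
    exact_mod_cast Finset.card_le_card this
  refine hbox.trans ?_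
  have hJK : J.card ≤ k := by omega
  have hSK : (S₀ ∪ W).card ≤ 2 * k := by
    have := Finset.card_union_le S₀ W
    omega
  obtain ⟨m, hm⟩ : ∃ m : ℕ, m = (prs J).card := ⟨_, rfl⟩
  have hpr : m ≤ k * k := by
    rw [hm]
    refine (prs_card J).trans ?_
    rw [hcJ]
    exact Nat.mul_le_mul hJK hJK
  rw [← hm]
  have hN0 : (0 : ℝ) < ((∏ p ∈ S₀, nrm p : ℕ) : ℝ) := by
    exact_mod_cast Finset.prod_pos fun p hp => nrm_one_le (h₀O p hp).1
  have hprod : ∏ j : J, ((16 * XX H (j.1 / 16) : ℕ) : ℝ) ≤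
      3 ^ (3 * k) * (X * (1 / ((∏ p ∈ S₀, nrm p : ℕ) : ℝ))) := by
    have h5 : ∏ j : J, ((16 * XX H (j.1 / 16) : ℕ) : ℝ) =
        16 ^ J.card * ((∏ i ∈ J, XX H (i / 16) : ℕ) : ℝ) := by
      rw [← Finset.prod_coe_sort J (fun i => XX H (i / 16))]
      push_cast
      rw [Finset.prod_mul_distrib, Finset.prod_const, Finset.card_univ, hcJ]
    have h6 : ((∏ i ∈ J, XX H (i / 16) : ℕ) : ℝ) ≤ X * (1 / ((∏ p ∈ S₀, nrm p : ℕ) : ℝ)) := by
      rw [mul_one_div, le_div_iff₀ hN0, mul_comm]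
      exact_mod_cast c5
    have h7 : (16 : ℝ) ^ J.card ≤ 3 ^ (3 * k) := by
      calc (16 : ℝ) ^ J.card ≤ 27 ^ J.card := pow_le_pow_left₀ (by norm_num) (by norm_num) _
        _ = 3 ^ (3 * J.card) := by rw [pow_mul]; norm_num
        _ ≤ 3 ^ (3 * k) := pow_le_pow_right₀ (by norm_num) (by omega)
    rw [h5]
    gcongr
  have hpw : (2 : ℝ) ^ ((S₀ ∪ W).card * Fintype.card J + m) * 3 ^ (3 * k) ≤
      3 ^ (9 * k ^ 2) := by
    refine (mul_le_mul_of_nonneg_right (pow_le_pow_left₀ (by norm_num) (by norm_num : (2 : ℝ) ≤ 3) _)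
      (by positivity)).trans ?_
    rw [← pow_add]
    apply pow_le_pow_right₀ (by norm_num)
    rw [hcJ]
    have h5 : (S₀ ∪ W).card * J.card ≤ (2 * k) * k := Nat.mul_le_mul hSK hJK
    have h6 : k ≤ k * k := by
      rcases Nat.eq_zero_or_pos k with h | h
      · rw [h]
      · exact Nat.le_mul_of_pos_left k h
    nlinarith
  refine add_le_add ?_ ?_
  · gcongr
  · have hX1 : (0 : ℝ) ≤ X * (1 / ((∏ p ∈ S₀, nrm p : ℕ) : ℝ)) := by positivity
    calc (2 : ℝ) ^ ((S₀ ∪ W).card * Fintype.card J + m) *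
        (κ * ∏ j : J, ((16 * XX H (j.1 / 16) : ℕ) : ℝ)) ≤
        2 ^ ((S₀ ∪ W).card * Fintype.card J + m) *
          (κ * (3 ^ (3 * k) * (X * (1 / ((∏ p ∈ S₀, nrm p : ℕ) : ℝ))))) := by gcongr
      _ = (2 ^ ((S₀ ∪ W).card * Fintype.card J + m) * 3 ^ (3 * k)) *
          (κ * (X * (1 / ((∏ p ∈ S₀, nrm p : ℕ) : ℝ)))) := by ring
      _ ≤ 3 ^ (9 * k ^ 2) * (κ * (X * (1 / ((∏ p ∈ S₀, nrm p : ℕ) : ℝ)))) := by gcongr
      _ = _ := by ring

theorem keg_err {P : Par} {X z H k M : ℕ} {κ : ℝ} (hX : 1 ≤ X) (hH : 1 ≤ H) (hz : 1 ≤ z)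
    (hκ : 0 ≤ κ)
    (hN : (H : ℝ) * Real.log X < M) {T : Finset (Finset ZI × Finset ℕ)}
    (hT : ∀ k' ∈ T, k' ∈ (RG P X z H k).image (ky P z H)) :
    ∑ k' ∈ T, (3 ^ (9 * k ^ 2) * κ) * (X * (1 / ((∏ p ∈ k'.1, nrm p : ℕ) : ℝ))) ≤
      (16 * M + 16 : ℝ) ^ k * (3 ^ (9 * k ^ 2 + 9) * κ) * (X * (1 + Real.log X)) := by
  -- the errors
  set U : Finset ℕ := range (16 * M) with hU
  set A := T.image Prod.fst with hA
  have hAp : ∀ S ∈ A, (∀ p ∈ S, PP p) ∧ ∏ p ∈ S, nrm p ≤ X := by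
    intro S hS
    rw [hA, Finset.mem_image] at hS
    obtain ⟨⟨S₀, J⟩, hk, rfl⟩ := hS
    obtain ⟨h₀O, h₀, hJi, hCd, hJf⟩ := key_facts hH (hT _ hk)
    refine ⟨fun p hp => (h₀O p hp).1, ?_⟩
    have h4 : 1 ≤ ∏ i ∈ J, XX H (i / 16) := by
      apply Nat.one_le_iff_ne_zero.2
      rw [Finset.prod_ne_zero_iff]
      intro i hi
      exact Nat.one_le_iff_ne_zero.1 (hz.trans (hJf i hi).1)
    calc ∏ p ∈ S₀, nrm p = (∏ p ∈ S₀, nrm p) * 1 := (mul_one _).symm
      _ ≤ (∏ p ∈ S₀, nrm p) * ∏ i ∈ J, XX H (i / 16) := Nat.mul_le_mul_left _ h4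
      _ ≤ X := hCd.2.2
  have hsub : T ⊆ A ×ˢ (U.powerset.filter fun J => J.card ≤ k) := by
    intro k' hk
    obtain ⟨S₀, J⟩ := k'
    rw [Finset.mem_product, Finset.mem_filter, Finset.mem_powerset]
    obtain ⟨h₀O, h₀, hJi, hCd, hJf⟩ := key_facts hH (hT _ hk)
    have hc := hCd.2.1
    refine ⟨Finset.mem_image_of_mem _ hk, ?_, (Nat.le_add_left _ _).trans hc⟩
    intro i hi
    obtain ⟨k2, q, hq, hzq, hqX, hqi⟩ := hJf i hi
    rw [hU, Finset.mem_range]
    have hH0 : (0 : ℝ) < H := by exact_mod_cast hH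
    have hq0 : (0 : ℝ) < nrm q := by exact_mod_cast nrm_one_le hq
    have h4 : (H : ℝ) * Real.log (nrm q) ≤ H * Real.log X := by
      apply mul_le_mul_of_nonneg_left _ hH0.le
      exact Real.log_le_log hq0 (by exact_mod_cast hqX)
    have h5 : ((⌊(H : ℝ) * Real.log (nrm q)⌋₊ : ℕ) : ℝ) < M :=
      (Nat.floor_le (mul_nonneg hH0.le (Real.log_natCast_nonneg _))).trans_lt (h4.trans_lt hN)
    have h6 : bl H q < M := by
      unfold bl jj
      exact_mod_cast h5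
    have h7 := ph_div P H q
    rw [hqi] at h7
    omega
  have hX0 : (0 : ℝ) ≤ X := Nat.cast_nonneg X
  have hcU : ((U.powerset.filter fun J => J.card ≤ k).card : ℝ) ≤ (16 * M + 16 : ℝ) ^ k := by
    have h4 := card_sub U k
    have h5 : U.card = 16 * M := by
      rw [hU, Finset.card_range]
    rw [h5] at h4
    have h6 : ((U.powerset.filter fun J => J.card ≤ k).card : ℝ) ≤ ((16 * M + 1 : ℕ) : ℝ) ^ k := by
      exact_mod_cast h4
    refine h6.trans ?_
    apply pow_le_pow_left₀ (by positivity)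
    push_cast
    linarith
  have hlogX : 0 ≤ 1 + Real.log X := by
    have := Real.log_natCast_nonneg X
    linarith
  calc ∑ k' ∈ T, (3 ^ (9 * k ^ 2) * κ) * (X * (1 / ((∏ p ∈ k'.1, nrm p : ℕ) : ℝ)))
      ≤ ∑ k' ∈ A ×ˢ (U.powerset.filter fun J => J.card ≤ k),
        (3 ^ (9 * k ^ 2) * κ) * (X * (1 / ((∏ p ∈ k'.1, nrm p : ℕ) : ℝ))) :=
        Finset.sum_le_sum_of_subset_of_nonneg hsub fun _ _ _ => by positivity
    _ = ((U.powerset.filter fun J => J.card ≤ k).card : ℝ) * ((3 ^ (9 * k ^ 2) * κ) *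
        (X * ∑ S ∈ A, 1 / ((∏ p ∈ S, nrm p : ℕ) : ℝ))) := by
        rw [Finset.sum_product]
        simp only [Finset.sum_const, nsmul_eq_mul]
        rw [← Finset.mul_sum, ← Finset.mul_sum, ← Finset.mul_sum]
    _ ≤ (16 * M + 16 : ℝ) ^ k * ((3 ^ (9 * k ^ 2) * κ) * (X * (64 * (1 + Real.log X)))) := by
        have h4 := sum_inv hX hAp
        have h5 : (0 : ℝ) ≤ ∑ S ∈ A, 1 / ((∏ p ∈ S, nrm p : ℕ) : ℝ) :=
          Finset.sum_nonneg fun _ _ => by positivity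
        gcongr
    _ = (16 * M + 16 : ℝ) ^ k * ((3 ^ (9 * k ^ 2) * 64) * κ) * (X * (1 + Real.log X)) := by ring
    _ ≤ (16 * M + 16 : ℝ) ^ k * (3 ^ (9 * k ^ 2 + 9) * κ) * (X * (1 + Real.log X)) := by
        have h6 : (3 : ℝ) ^ (9 * k ^ 2) * 64 ≤ 3 ^ (9 * k ^ 2 + 9) := by
          rw [pow_add]
          refine mul_le_mul_of_nonneg_left ?_ (by positivity)
          norm_num
        gcongr

/-- **GJ-KEY.** -/
theorem t_KEJ (hB1 : S_BIL) {G : Finset ZI → Prop} {N : Finset ZI → Finset ZI → Prop}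
    {W : Finset ZI} {cc ε : ℝ} (hB : BXJ G N W cc ε) (hε : 0 ≤ ε) : KEJ G N W cc ε := by
  obtain ⟨C₁, hC₁, hb1⟩ := hB1
  refine ⟨C₁, hC₁, ?_⟩
  intro P X z H k M κ hWz hWk hX hH hz hκ h1 hN
  set T := (RG P X z H k).image (ky P z H) with hT
  have hfib : ∀ F : Finset ZI → Prop, (((RG P X z H k).filter fun S => F S).card : ℝ) =
      ∑ k' ∈ T, (((RG P X z H k).filter fun S => ky P z H S = k' ∧ F S).card : ℝ) := by
    intro F
    rw [Finset.card_eq_sum_card_fiberwise (f := ky P z H) (t := T) (by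
      intro S hS
      rw [Finset.mem_coe, Finset.mem_filter] at hS
      exact Finset.mem_coe.2 (Finset.mem_image_of_mem _ hS.1))]
    push_cast
    refine Finset.sum_congr rfl fun k' _ => ?_
    congr 2
    ext S
    simp only [Finset.mem_filter]
    tauto
  have hall : ((RG P X z H k).card : ℝ) =
      ∑ k' ∈ T, (((RG P X z H k).filter fun S => ky P z H S = k' ∧ True).card : ℝ) := by
    rw [Finset.card_eq_sum_card_fiberwise (f := ky P z H) (t := T) (by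
      intro S hS
      exact Finset.mem_coe.2 (Finset.mem_image_of_mem _ hS))]
    push_cast
    exact Finset.sum_congr rfl fun k' _ => congrArg _ (fcc fun _ _ => by tauto)
  have q1 : (((RG P X z H k).filter fun S => N (sm z S) (la z S) ∧ G S).card : ℝ) =
      ∑ k' ∈ T, (((RG P X z H k).filter fun S => ky P z H S = k' ∧
        (N (sm z S) (la z S) ∧ G S)).card : ℝ) :=
    (congrArg _ (fcc fun _ _ => Iff.rfl)).trans ((hfib fun S => N (sm z S) (la z S) ∧ G S).trans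
      (Finset.sum_congr rfl fun k' _ => congrArg _ (fcc fun _ _ => Iff.rfl)))
  rw [q1, hfib, Finset.mul_sum, ← Finset.sum_sub_distrib, hall, Finset.mul_sum]
  refine (Finset.abs_sum_le_sum_abs _ _).trans ?_
  have h3 : ∑ k' ∈ T, |(((RG P X z H k).filter fun S => ky P z H S = k' ∧
      (N (sm z S) (la z S) ∧ G S)).card : ℝ) - cc * (((RG P X z H k).filter fun S =>
      ky P z H S = k' ∧ N (sm z S) (la z S)).card : ℝ)| ≤
      ∑ k' ∈ T, (ε * (((RG P X z H k).filter fun S =>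
      ky P z H S = k' ∧ True).card : ℝ) +
      (3 ^ (9 * k ^ 2) * κ) * (X * (1 / ((∏ p ∈ k'.1, nrm p : ℕ) : ℝ)))) := by
    refine Finset.sum_le_sum fun k' hk => ?_
    obtain ⟨S₀, J⟩ := k'
    exact per_key hB hε hb1 hWz hWk hH hz hκ h1 hk
  refine h3.trans ?_
  rw [Finset.sum_add_distrib]
  refine add_le_add (le_refl _) ?_
  exact keg_err hX hH hz hκ hN fun k' hk => hk

end Pool.Agent.H691.GJ.KEY
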