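import Pool.Agent.Run7.h691.GJ.Box
import Pool.Agent.Run7.h691.GJ.Key
import Pool.Agent.Run7.h691.GJ.Few
import Pool.Agent.Run7.h691.GZ.Asy
import Pool.Agent.Run7.h691.GZ.Bil
import Pool.Agent.Y948.CQ.C2

/-!
# GJ: the joint law for the sets of primes
-/

set_option autoImplicit false
set_option linter.unusedVariables false

open scoped Classical
open Finset Filter

namespace Pool.Agent.H691.GJ

open H385 (ZI nrm)
open Pool.Agent.Y699 (PP QB mem_QB)
open Pool.Agent.Y703.CX (jj XX eL zz kk eL_tendsto logX_eq rpow_eL HH NN ev_eL one_le_exp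
  HH_ge HH_le HH_pos kk_ge kk_le X_pos one_add_log lin_le zz_ge zz_pos)
open Pool.Agent.Y703.CQ (Sml sml_of sml_add S_C2 c2)
open Pool.Agent.H691.GZ (qa sg Gd Nd prs HB sm la bl SS CntP)
open Pool.Agent.H691.GZ.AS (sml_many sml_cut sml_coll kap kap_nonneg kap_pow sml_main cmp sml_eps)

theorem SG_sub {P : Par} {X : ℕ} : SG P X ⊆ SS (range 16) X := by
  intro S hS
  have h := KEY.mem_SG.1 hS
  rw [Pool.Agent.H691.GZ.KEY.mem_SS]
  exact ⟨⟨fun π hπ => (h.1.1 π hπ).1, mem_range.2 (Nat.mod_lt _ (by norm_num))⟩, h.2⟩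

/-- the sets outside the regular part -/
theorem out_sub (P : Par) (N : Finset ZI → Finset ZI → Prop) (X z H k : ℕ) :
    SG P X \ ((RG P X z H k).filter fun S => N (sm z S) (la z S)) ⊆
      ((((SS (range 16) X).filter fun S => k < S.card) ∪
      ((SS (range 16) X).filter fun S => S.card ≤ k ∧
        X < (∏ π ∈ sm z S, nrm π) * ∏ π ∈ la z S, XX H (bl H π))) ∪
      ((SS (range 16) X).filter fun S => ¬ Set.InjOn (bl H) (la z S : Set ZI))) ∪
      ((SS (range 16) X).filter fun S => S.card ≤ k ∧ ¬ N (sm z S) (la z S)) := by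
  intro S hS
  rw [Finset.mem_sdiff, Finset.mem_filter] at hS
  obtain ⟨h0, h2⟩ := hS
  have h1 := SG_sub h0
  simp only [mem_union, mem_filter]
  by_contra hc
  push Not at hc
  obtain ⟨⟨⟨c1, c2⟩, c3⟩, c5⟩ := hc
  have d1 : S.card ≤ k := c1 h1
  have d2 := c2 h1 d1
  have d3 := c3 h1
  have d5 := c5 h1 d1
  apply h2
  refine ⟨?_, d5⟩
  unfold RG
  rw [mem_filter]
  exact ⟨h0, d3, d1, d2⟩

/-- the parameters are large -/
theorem ev_W (W : Finset ZI) : ∀ᶠ X : ℕ in atTop, (∀ u ∈ W, nrm u ≤ zz X) ∧ W.card ≤ kk X := by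
  set B : ℕ := ∑ u ∈ W, nrm u + W.card with hB
  filter_upwards [ev_eL (2 * B + 1)] with X hX
  have hB0 : (0 : ℝ) ≤ B := Nat.cast_nonneg _
  have h1 : 1 ≤ eL X := by linarith
  have h2 := zz_ge h1
  have h3 := kk_ge X
  have h4 := Real.add_one_le_exp ((eL X) ^ 3)
  have h5 : eL X ≤ (eL X) ^ 3 := by
    have h8 : (eL X) ^ 3 = eL X * (eL X * eL X) := by ring
    rw [h8]
    nlinarith
  have h6 : (B : ℝ) ≤ zz X := by linarith
  have h7 : (B : ℝ) ≤ kk X := by linarith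
  have h8 : B ≤ zz X := by exact_mod_cast h6
  have h9 : B ≤ kk X := by exact_mod_cast h7
  refine ⟨fun u hu => ?_, by omega⟩
  have h10 : nrm u ≤ ∑ u ∈ W, nrm u := Finset.single_le_sum (fun _ _ => Nat.zero_le _) hu
  omega

/-- **the joint law with an event** -/
theorem t_AJ (P : Par) (W : Finset ZI) (hW : ∀ u ∈ W, PP u) (𝒰 : Finset (Finset ZI))
    (hU : ∀ U ∈ 𝒰, U ⊆ W) (Ev : Finset ZI → (ZI → ZMod 2) → Prop) (ε : ℝ) (hε : 0 < ε) :
    ∀ᶠ X : ℕ in atTop, |(((SG P X).filter fun S => EvS W Ev S ∧ GdJ 𝒰 S).card : ℝ) -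
      c2 ^ 𝒰.card * (((SG P X).filter fun S => EvS W Ev S).card : ℝ)| ≤ ε * X := by
  obtain ⟨hC2a, hC2b, hC2c, hC2d, hC2e⟩ := Pool.Agent.Y948.CQ.t_C2
  obtain ⟨D, hD⟩ := Pool.Agent.H691.GZ.CNT.t_CNT (range 16)
  have hD1 := hD.one
  obtain ⟨r, hr⟩ := t_BXJ 𝒰.card (ε / (2 * D)) (by positivity)
  have hbx := hr W 𝒰 Ev rfl hW hU
  obtain ⟨C, hC1, hkey⟩ := KEY.t_KEJ Pool.Agent.H691.GZ.t_BIL hbx (by positivity)
  have s1 := sml_many hD
  have s2 := sml_cut hD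
  have s3 := sml_coll hD
  have s4 : Sml 0 fun X => (((SS (range 16) X).filter fun S => S.card ≤ kk X ∧
      ((∀ u ∈ W, nrm u ≤ zz X) ∧ ¬ NdJ r W 𝒰 (sm (zz X) S) (la (zz X) S))).card : ℝ) := by
    refine sml_eps fun δ hδ => ?_
    obtain ⟨X₀, h0⟩ := FW.t_FEW (range 16) r W hW 𝒰 hU δ hδ
    refine ⟨X₀, fun X hX => h0 X hX _ fun S hS => ?_⟩
    rw [mem_filter] at hS
    exact hS
  have s6 := sml_main hC1
  have s := sml_add (sml_add (sml_add (sml_add s1 s2) s3) s4) s6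
  filter_upwards [s (ε / 2) (by linarith), ev_eL 1, ev_W W] with X hX hl hWX
  rw [neg_zero, zero_mul, Real.exp_zero, mul_one] at hX
  have hl0 : 0 < eL X := by linarith
  have hXp := X_pos hl0
  have hXp' : (0 : ℝ) < X := by exact_mod_cast hXp
  have hN : (HH X : ℝ) * Real.log X < NN X := by
    unfold NN
    push_cast
    exact Nat.lt_floor_add_one _
  have hmain := hkey P X (zz X) (HH X) (kk X) (NN X) (kap C X) hWX.1 hWX.2 hXp (HH_pos hl0)
    (zz_pos hl) (kap_nonneg hC1 X) (kap_pow hC1 hl) hN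
  set T := (RG P X (zz X) (HH X) (kk X)).filter fun S =>
    NE r W 𝒰 Ev (sm (zz X) S) (la (zz X) S) with hT
  set Q := (SG P X).filter fun S => EvS W Ev S with hQ
  have hTG : (RG P X (zz X) (HH X) (kk X)).filter
      (fun S => NE r W 𝒰 Ev (sm (zz X) S) (la (zz X) S) ∧ GdJ 𝒰 S) = T.filter (GdJ 𝒰) := by
    rw [hT, filter_filter]
  rw [hTG] at hmain
  have hNE : ∀ S : Finset ZI, NE r W 𝒰 Ev (sm (zz X) S) (la (zz X) S) ↔
      NdJ r W 𝒰 (sm (zz X) S) (la (zz X) S) ∧ EvS W Ev S := by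
    intro S
    unfold NE
    rw [Pool.Agent.H691.GZ.KEY.sm_union]
  have hTQ : T ⊆ Q := by
    intro S hS
    rw [hT, mem_filter, hNE] at hS
    rw [hQ, mem_filter]
    refine ⟨?_, hS.2.2⟩
    unfold RG at hS
    exact (mem_filter.1 hS.1).1
  have hQG : (SG P X).filter (fun S => EvS W Ev S ∧ GdJ 𝒰 S) = Q.filter (GdJ 𝒰) := by
    rw [hQ, filter_filter]
  have hRS : ((RG P X (zz X) (HH X) (kk X)).card : ℝ) ≤ D * X := by
    refine le_trans ?_ (hD.all X hXp)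
    exact_mod_cast card_le_card ((filter_subset _ _).trans SG_sub)
  have hc0 : 0 ≤ c2 ^ 𝒰.card := pow_nonneg hC2b.le _
  have hc1 : c2 ^ 𝒰.card ≤ 1 := pow_le_one₀ hC2b.le hC2c.le
  have hcmp := cmp (GdJ 𝒰) T Q hTQ (c2 ^ 𝒰.card) hc0 hc1
  have hsub2 : Q \ T ⊆ SG P X \ ((RG P X (zz X) (HH X) (kk X)).filter fun S =>
      NdJ r W 𝒰 (sm (zz X) S) (la (zz X) S)) := by
    intro S hS
    rw [Finset.mem_sdiff, hQ, hT, mem_filter, mem_filter, hNE] at hS
    rw [Finset.mem_sdiff, mem_filter]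
    exact ⟨hS.1.1, fun h => hS.2 ⟨h.1, h.2, hS.1.2⟩⟩
  have hout : ((Q \ T).card : ℝ) ≤
      ((((SS (range 16) X).filter fun S => kk X < S.card).card : ℝ) +
      (((SS (range 16) X).filter fun S => S.card ≤ kk X ∧
        X < (∏ π ∈ sm (zz X) S, nrm π) * ∏ π ∈ la (zz X) S, XX (HH X) (bl (HH X) π)).card : ℝ) +
      (((SS (range 16) X).filter fun S =>
        ¬ Set.InjOn (bl (HH X)) (la (zz X) S : Set ZI)).card : ℝ)) +
      (((SS (range 16) X).filter fun S => S.card ≤ kk X ∧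
        ((∀ u ∈ W, nrm u ≤ zz X) ∧ ¬ NdJ r W 𝒰 (sm (zz X) S) (la (zz X) S))).card : ℝ) := by
    have e : ((SS (range 16) X).filter fun S => S.card ≤ kk X ∧
        ¬ NdJ r W 𝒰 (sm (zz X) S) (la (zz X) S)) ⊆ (SS (range 16) X).filter fun S =>
        S.card ≤ kk X ∧ ((∀ u ∈ W, nrm u ≤ zz X) ∧
          ¬ NdJ r W 𝒰 (sm (zz X) S) (la (zz X) S)) := by
      intro S hS
      rw [mem_filter] at hS ⊢
      exact ⟨hS.1, hS.2.1, hWX.1, hS.2.2⟩
    have g := (card_le_card hsub2).trans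
      (card_le_card (out_sub P (NdJ r W 𝒰) X (zz X) (HH X) (kk X)))
    have g2 := (g.trans (card_union_le _ _)).trans (Nat.add_le_add ((card_union_le _ _).trans
      (Nat.add_le_add_right (card_union_le _ _) _)) (card_le_card e))
    exact_mod_cast g2
  rw [hQG]
  have g1 : ε / (2 * D) * ((RG P X (zz X) (HH X) (kk X)).card : ℝ) ≤ ε / 2 * X := by
    have hD0 : 0 < D := by linarith
    calc ε / (2 * D) * ((RG P X (zz X) (HH X) (kk X)).card : ℝ) ≤ ε / (2 * D) * (D * X) :=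
          mul_le_mul_of_nonneg_left hRS (by positivity)
      _ = ε / 2 * X := by field_simp
  linarith

end Pool.Agent.H691.GJ
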