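import Pool.Agent.Run7.h691.GZ.LA
import Pool.Agent.Y697.JQ.LA

/-!
# GJ-LA: the joint law of the Laplacians of a random graph with several masks
-/

set_option autoImplicit false

open scoped Classical

namespace Pool.Agent.H691.GJ

open Finset
open Pool.Agent.H691.GZ (prs)
open Pool.Agent.H691.GZ.LA (ext_symm ext_self ext_pos ext_neg mem_prs exists_ks)
open Pool.Agent.Y703.CQ (c2)

/-- all solutions of the block system with the mask `m` are constant -/
def GdX {U J : Type} [Fintype U] [Fintype J] (m : Finset U) (A : U → U → ZMod 2)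
    (B : U → J → ZMod 2) (R : J → J → ZMod 2) : Prop :=
  ∀ (c : U → ZMod 2) (d : J → ZMod 2),
    (∀ u ∈ m, ∑ v ∈ m, A u v * (c v - c u) + ∑ l, B u l * (d l - c u) = 0) →
    (∀ k, ∑ u ∈ m, B u k * (c u - d k) + ∑ l, R k l * (d l - d k) = 0) →
    ∃ t : ZMod 2, (∀ u ∈ m, c u = t) ∧ ∀ l, d l = t

theorem tot_symm {κ : Type} (m : Finset κ) (R : κ → κ → ZMod 2) (hR : ∀ i j, R i j = R j i)
    (d : κ → ZMod 2) : ∑ k ∈ m, ∑ l ∈ m, R k l * (d l - d k) = 0 := by
  simp only [mul_sub, sum_sub_distrib]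
  rw [sub_eq_zero, sum_comm]
  exact sum_congr rfl fun k _ => sum_congr rfl fun l _ => by rw [hR]

theorem tot_cross {ι κ : Type} (m : Finset ι) (n : Finset κ) (B : ι → κ → ZMod 2) (c : ι → ZMod 2)
    (d : κ → ZMod 2) :
    ∑ u ∈ m, ∑ l ∈ n, B u l * (d l - c u) + ∑ k ∈ n, ∑ u ∈ m, B u k * (c u - d k) = 0 := by
  rw [sum_comm (s := n), ← sum_add_distrib]
  refine sum_eq_zero fun u _ => ?_
  rw [← sum_add_distrib]
  refine sum_eq_zero fun k _ => ?_
  ring

section
variable {J : Type} [Fintype J] [LinearOrder J]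

theorem mem_cprs (J1 : Finset J) (k l : J) : (k, l) ∈ Pool.Agent.Y703.CQ.prs J1 ↔
    k ∈ J1 ∧ l ≠ k ∧ (l ∈ J1 → k < l) := by
  unfold Pool.Agent.Y703.CQ.prs
  rw [mem_filter]
  exact ⟨fun h => h.2, fun h => ⟨mem_univ _, h⟩⟩

/-- the same symbols for the other set of pairs -/
noncomputable def rst (ks : J) (α : prs J → ZMod 2) :
    Pool.Agent.Y703.CQ.prs (univ.erase ks) → ZMod 2 :=
  fun e => Pool.Agent.H691.GZ.ext α e.1.1 e.1.2

theorem ext_rst (ks : J) (α : prs J → ZMod 2) {k : J} (hk : k ∈ univ.erase ks) (l : J) :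
    Pool.Agent.Y703.CQ.ext (rst ks α) k l = Pool.Agent.H691.GZ.ext α k l := by
  unfold Pool.Agent.Y703.CQ.ext
  by_cases h1 : (k, l) ∈ Pool.Agent.Y703.CQ.prs (univ.erase ks)
  · rw [dif_pos h1]
    rfl
  · rw [dif_neg h1]
    by_cases h2 : (l, k) ∈ Pool.Agent.Y703.CQ.prs (univ.erase ks) ∧ k ∈ univ.erase ks
    · rw [dif_pos h2]
      exact ext_symm α l k
    · rw [dif_neg h2]
      have h3 : l = k := by
        by_contra hne
        rw [mem_cprs] at h1
        have h4 : l ∈ univ.erase ks := by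
          by_contra h5
          exact h1 ⟨hk, hne, fun h => absurd h h5⟩
        have h6 : ¬ k < l := fun h => h1 ⟨hk, hne, fun _ => h⟩
        apply h2
        rw [mem_cprs]
        exact ⟨⟨h4, Ne.symm hne, fun _ => lt_of_le_of_ne (not_lt.1 h6) hne⟩, hk⟩
      rw [h3, ext_self]

theorem rst_bij (ks : J) : Function.Bijective (rst ks) := by
  constructor
  · intro α β h
    funext e
    obtain ⟨⟨k, l⟩, he⟩ := e
    have hlt := (mem_prs k l).1 he
    by_cases hk : k ∈ univ.erase ks
    · have h1 := ext_rst ks α hk l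
      have h2 := ext_rst ks β hk l
      rw [h, h2, ext_pos α he, ext_pos β he] at h1
      exact h1.symm
    · have hk' : k = ks := by
        by_contra hne
        exact hk (mem_erase.2 ⟨hne, mem_univ _⟩)
      have hl : l ∈ univ.erase ks := mem_erase.2 ⟨by rw [← hk']; exact hlt.ne', mem_univ _⟩
      have h1 := ext_rst ks α hl k
      have h2 := ext_rst ks β hl k
      rw [h, h2, ext_neg α he, ext_neg β he] at h1
      exact h1.symm
  · intro γ
    refine ⟨fun e => if e.1.1 ∈ univ.erase ks then Pool.Agent.Y703.CQ.ext γ e.1.1 e.1.2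
      else Pool.Agent.Y703.CQ.ext γ e.1.2 e.1.1, ?_⟩
    funext e
    obtain ⟨⟨k, l⟩, he⟩ := e
    obtain ⟨hk, hne, hlt⟩ := (mem_cprs _ k l).1 he
    have h0 : Pool.Agent.Y703.CQ.ext γ k l = γ ⟨(k, l), he⟩ := by
      unfold Pool.Agent.Y703.CQ.ext
      rw [dif_pos he]
    show Pool.Agent.H691.GZ.ext _ k l = γ ⟨(k, l), he⟩
    rcases lt_or_gt_of_ne (Ne.symm hne) with h | h
    · rw [ext_pos _ ((mem_prs k l).2 h)]
      simp only
      rw [if_pos hk, h0]
    · have hl : l ∉ univ.erase ks := fun hl => lt_asymm h (hlt hl)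
      rw [ext_neg _ ((mem_prs l k).2 h)]
      simp only
      rw [if_neg hl, h0]

theorem gdX_iff {U : Type} [Fintype U] (ks : J) (m : Finset U) (A : U → U → ZMod 2)
    (B : U → J → ZMod 2) (hA : ∀ u v, A u v = A v u) (α : prs J → ZMod 2) :
    GdX m A B (Pool.Agent.H691.GZ.ext α) ↔
      Pool.Agent.Y687.JQ.GdM m univ (univ.erase ks) A B (fun k u => B u k)
        (Pool.Agent.Y703.CQ.ext (rst ks α)) (fun _ => 0) (fun _ => 0) := by
  constructor
  · intro h x y _ hx hy h1 h2
    have hy0 : y ks = 0 := hy ks (notMem_erase _ _)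
    have g1 : ∀ u ∈ m, ∑ v ∈ m, A u v * (x v - x u) + ∑ l, B u l * (y l - x u) = 0 := by
      intro u hu
      have := h1 u (mem_univ _) hu
      simp only [CharTwo.sub_eq_add]
      rw [zero_mul, add_zero] at this
      exact this
    have g2 : ∀ k, k ≠ ks → ∑ u ∈ m, B u k * (x u - y k) +
        ∑ l, Pool.Agent.H691.GZ.ext α k l * (y l - y k) = 0 := by
      intro k hk
      have hk' : k ∈ univ.erase ks := mem_erase.2 ⟨hk, mem_univ _⟩
      have := h2 k hk'
      simp only [CharTwo.sub_eq_add]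
      rw [zero_mul, add_zero] at this
      simp only [ext_rst ks α hk'] at this
      exact this
    have g3 : ∑ u ∈ m, B u ks * (x u - y ks) +
        ∑ l, Pool.Agent.H691.GZ.ext α ks l * (y l - y ks) = 0 := by
      have t1 := tot_symm m A hA x
      have t2 := tot_symm univ (Pool.Agent.H691.GZ.ext α) (ext_symm α) y
      have t3 := tot_cross m univ B x y
      have t4 : ∑ u ∈ m, (∑ v ∈ m, A u v * (x v - x u) + ∑ l, B u l * (y l - x u)) = 0 :=
        sum_eq_zero g1
      have t5 : ∑ k, (∑ u ∈ m, B u k * (x u - y k) +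
          ∑ l, Pool.Agent.H691.GZ.ext α k l * (y l - y k)) =
          ∑ u ∈ m, B u ks * (x u - y ks) +
            ∑ l, Pool.Agent.H691.GZ.ext α ks l * (y l - y ks) := by
        refine sum_eq_single ks (fun k _ hk => g2 k hk) fun h => absurd (mem_univ _) h
      rw [← t5]
      rw [sum_add_distrib] at t4 ⊢
      rw [t1, zero_add] at t4
      rw [t2, add_zero]
      rw [t4, zero_add] at t3
      exact t3
    obtain ⟨t, h3, h4⟩ := h x y g1 (fun k => by
      by_cases hk : k = ks
      · rw [hk]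
        exact g3
      · exact g2 k hk)
    have ht : t = 0 := by rw [← h4 ks, hy0]
    refine ⟨fun u => ?_, fun l => ?_⟩
    · by_cases hu : u ∈ m
      · rw [h3 u hu, ht]
      · exact hx u hu
    · rw [h4, ht]
  · intro h c d h1 h2
    have key : ∀ a b t : ZMod 2, a + t + (b + t) = a - b := by decide
    obtain ⟨h3, h4⟩ := h (fun u => if u ∈ m then c u + d ks else 0) (fun l => d l + d ks)
      (fun u hu => absurd (mem_univ _) hu) (fun u hu => if_neg hu)
      (fun k hk => by
        have hk' : k = ks := by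
          by_contra hne
          exact hk (mem_erase.2 ⟨hne, mem_univ _⟩)
        rw [hk']
        exact CharTwo.add_self_eq_zero _)
      (fun u _ hu => by
        rw [zero_mul, add_zero]
        have e1 : ∑ v ∈ m, A u v * ((if v ∈ m then c v + d ks else 0) +
            if u ∈ m then c u + d ks else 0) = ∑ v ∈ m, A u v * (c v - c u) := by
          refine sum_congr rfl fun v hv => ?_
          rw [if_pos hv, if_pos hu, key]
        have e2 : ∑ l, B u l * (d l + d ks + if u ∈ m then c u + d ks else 0) =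
            ∑ l, B u l * (d l - c u) := by
          refine sum_congr rfl fun l _ => ?_
          rw [if_pos hu, key]
        rw [e1, e2]
        exact h1 u hu)
      (fun k hk => by
        rw [zero_mul, add_zero]
        have e1 : ∑ u ∈ m, B u k * ((if u ∈ m then c u + d ks else 0) + (d k + d ks)) =
            ∑ u ∈ m, B u k * (c u - d k) := by
          refine sum_congr rfl fun v hv => ?_
          rw [if_pos hv, key]
        have e2 : ∑ l, Pool.Agent.Y703.CQ.ext (rst ks α) k l * (d l + d ks + (d k + d ks)) =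
            ∑ l, Pool.Agent.H691.GZ.ext α k l * (d l - d k) := by
          refine sum_congr rfl fun l _ => ?_
          rw [ext_rst ks α hk, key]
        rw [e1, e2]
        exact h2 k)
    have key2 : ∀ a b : ZMod 2, a + b = 0 → a = b := by decide
    refine ⟨d ks, fun u hu => ?_, fun k => ?_⟩
    · have := h3 u
      rw [if_pos hu] at this
      exact key2 _ _ this
    · exact key2 _ _ (h4 k)

end

/-- **the joint law** -/
theorem t_LAJ (M : ℕ) (ε : ℝ) (hε : 0 < ε) : ∃ R : ℕ, ∀ (U J : Type) [Fintype U] [Fintype J]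
    [LinearOrder J] (m : Fin M → Finset U) (A : U → U → ZMod 2) (B : U → J → ZMod 2),
    (∀ u v, A u v = A v u) →
    (∀ w : U → ZMod 2, (∃ u, w u ≠ 0) → ∃ k, ∑ u, w u * B u k ≠ 0) →
    2 * Fintype.card U + R ≤ Fintype.card J →
    (∀ i j, i ≠ j → 2 * Fintype.card U + R ≤
      (univ.filter fun k => ∑ u ∈ m i, B u k + ∑ u ∈ m j, B u k ≠ 0).card) →
    |((univ.filter fun α : prs J → ZMod 2 =>
        ∀ i, GdX (m i) A B (Pool.Agent.H691.GZ.ext α)).card : ℝ) /
      2 ^ (prs J).card - c2 ^ M| ≤ ε := by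
  obtain ⟨R, hR⟩ := Pool.Agent.Y697.JQ.t_JLA M ε hε
  refine ⟨R + 1, ?_⟩
  intro U J _ _ _ m A B hA hB hJ hm
  obtain ⟨ks, hks⟩ := exists_ks (by omega) B hB
  have hcJ : (univ.erase ks).card = Fintype.card J - 1 := by
    rw [card_erase_of_mem (mem_univ _), card_univ]
  have h1 := hR U J univ (univ.erase ks) ⟨ks, notMem_erase _ _⟩ m A B (fun k u => B u k)
    (fun _ => 0) (fun _ => 0) (fun u _ v _ => hA u v) (fun _ _ _ _ => rfl)
    (fun w _ hw => by
      obtain ⟨k, hk, hk2⟩ := hks w hw
      exact ⟨k, mem_erase.2 ⟨hk, mem_univ _⟩, hk2⟩)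
    (by rw [hcJ, card_univ]; omega)
    (fun i j hij => by
      have h2 := hm i j hij
      rw [card_univ]
      have h3 : (univ.filter fun k => ∑ u ∈ m i, B u k + ∑ u ∈ m j, B u k ≠ 0) ⊆
          insert ks ((univ.erase ks).filter fun k => ∑ u ∈ m i, B u k + ∑ u ∈ m j, B u k ≠ 0) := by
        intro k hk
        rw [mem_filter] at hk
        rw [mem_insert, mem_filter, mem_erase]
        by_cases h : k = ks
        · exact Or.inl h
        · exact Or.inr ⟨⟨h, mem_univ _⟩, hk.2⟩
      have h4 := (card_le_card h3).trans (card_insert_le _ _)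
      omega)
  have hbij := rst_bij ks
  have hcard : (prs J).card = (Pool.Agent.Y703.CQ.prs (univ.erase ks)).card := by
    have h2 := Fintype.card_of_bijective hbij
    rw [Fintype.card_fun, Fintype.card_fun, ZMod.card, Fintype.card_coe, Fintype.card_coe] at h2
    exact Nat.pow_right_injective (le_refl 2) h2
  have hflt : (univ.filter fun α : prs J → ZMod 2 =>
        ∀ i, GdX (m i) A B (Pool.Agent.H691.GZ.ext α)).card =
      (univ.filter fun α : Pool.Agent.Y703.CQ.prs (univ.erase ks) → ZMod 2 => ∀ i,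
        Pool.Agent.Y687.JQ.GdM (m i) univ (univ.erase ks) A B (fun k u => B u k)
        (Pool.Agent.Y703.CQ.ext α) (fun _ => 0) (fun _ => 0)).card := by
    refine card_bij (fun α _ => rst ks α) ?_ ?_ ?_
    · intro α hα
      rw [mem_filter] at hα ⊢
      exact ⟨mem_univ _, fun i => (gdX_iff ks (m i) A B hA α).1 (hα.2 i)⟩
    · intro α _ β _ h
      exact hbij.1 h
    · intro γ hγ
      obtain ⟨α, rfl⟩ := hbij.2 γ
      rw [mem_filter] at hγ
      refine ⟨α, ?_, rfl⟩
      rw [mem_filter]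
      exact ⟨mem_univ _, fun i => (gdX_iff ks (m i) A B hA α).2 (hγ.2 i)⟩
  rw [hflt, hcard]
  exact h1

end Pool.Agent.H691.GJ
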