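import Pool.Agent.Run7.h691.GZ.Stm

/-!
# Project GJ (helper691): joint laws over `ℚ(i)`

`D` runs over the squarefree primary elements of `ℤ[i]` in a class, and `U` over a finite set of
finite sets of primes. The elements `D ∆ U` are simultaneously good with the probability
`c2 ^ #𝒰`, also under conditions on the symbols of `D` modulo fixed primes.
After project JQ (over `ℚ`, helpers 687, 697, 362, 405, 514).
-/

set_option autoImplicit false
set_option linter.unusedVariables false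

open scoped Classical

namespace Pool.Agent.H691.GJ

open Finset
open H385 (ZI nrm)
open Pool.Agent.Y699 (PP PS qr QB PD)
open Pool.Agent.Y703.CX (jj XX eL zz kk)
open Pool.Agent.Y703.CQ (c2)
open Pool.Agent.H691.GZ (qa sg Gd Nd prs HB sm la bl)

/-- jointly good -/
def GdJ (𝒰 : Finset (Finset ZI)) (S : Finset ZI) : Prop := ∀ U ∈ 𝒰, Gd (symmDiff S U)

/-- the sums of the symbols at the elements of `W` -/
noncomputable def sy (W S : Finset ZI) (w : ZI) : ZMod 2 := if w ∈ W then ∑ π ∈ S, qa w π else 0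

/-- an event which depends on the elements of `W` in `S` and the symbols at the elements of `W` -/
def EvS (W : Finset ZI) (Ev : Finset ZI → (ZI → ZMod 2) → Prop) (S : Finset ZI) : Prop :=
  Ev (S ∩ W) (sy W S)

/-- the parameters of a class: the admissible primes, the labels modulo `16`, the residues -/
structure Par where
  /-- the admissible primes -/
  Q : ZI → Prop
  /-- the labels -/
  m : ZI → ℕ
  /-- the residues -/
  R : Finset ℕ

/-- the class of the sets of primary primes -/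
def ClG (P : Par) (S : Finset ZI) : Prop :=
  (∀ π ∈ S, PP π ∧ P.Q π) ∧ (∏ π ∈ S, P.m π) % 16 ∈ P.R

/-- the sets of the class with norm at most `X` -/
noncomputable def SG (P : Par) (X : ℕ) : Finset (Finset ZI) :=
  (QB X).powerset.filter fun S => ClG P S ∧ ∏ π ∈ S, nrm π ≤ X

/-- all sets of primes with norm at most `X` -/
noncomputable def AA (X : ℕ) : Finset (Finset ZI) :=
  (QB X).powerset.filter fun S => ∏ π ∈ S, nrm π ≤ X

/-- the labels of the large primes `S₁` with respect to the small ones `S₀` and to `W` are not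
degenerate, and they separate the masks -/
def NdJ (R : ℕ) (W : Finset ZI) (𝒰 : Finset (Finset ZI)) (S₀ S₁ : Finset ZI) : Prop :=
  Nd (S₀ ∪ W) S₁ ∧ 2 * (S₀ ∪ W).card + R ≤ S₁.card ∧
    ∀ U ∈ 𝒰, ∀ U' ∈ 𝒰, U ≠ U' → 2 * (S₀ ∪ W).card + R ≤
      (S₁.filter fun p => ∑ u ∈ symmDiff U U', qa u p ≠ 0).card

/-- the condition on the small and the large primes -/
def NE (R : ℕ) (W : Finset ZI) (𝒰 : Finset (Finset ZI)) (Ev : Finset ZI → (ZI → ZMod 2) → Prop)
    (S₀ S₁ : Finset ZI) : Prop :=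
  NdJ R W 𝒰 S₀ S₁ ∧ EvS W Ev (S₀ ∪ S₁)

/-- the count in a box, for the property `G` and the condition `N` -/
def BXJ (G : Finset ZI → Prop) (N : Finset ZI → Finset ZI → Prop) (W : Finset ZI) (cc ε : ℝ) :
    Prop := ∀ (ι : Type) [Fintype ι] [LinearOrder ι]
  (C : ι → Finset ZI) (X : ι → ℕ) (κ : ℝ) (S₀ : Finset ZI), 0 ≤ κ → (∀ i, (C i).card ≤ X i) →
  HB C X κ → (∀ u ∈ S₀, PP u) → (∀ i, ∀ π ∈ C i, PP π ∧ π ∉ S₀ ∪ W) →
  (∀ i l, i ≠ l → Disjoint (C i) (C l)) →
  |(((Fintype.piFinset C).filter fun p => N S₀ (univ.image p) ∧ G (S₀ ∪ univ.image p)).card : ℝ) -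
      cc * (((Fintype.piFinset C).filter fun p => N S₀ (univ.image p)).card : ℝ)| ≤
    ε * (((Fintype.piFinset C).filter fun p => N S₀ (univ.image p)).card : ℝ) +
    2 ^ ((S₀ ∪ W).card * Fintype.card ι + (prs ι).card) * (κ * ∏ j, (X j : ℝ))

/-- the regular sets -/
noncomputable def RG (P : Par) (X z H k : ℕ) : Finset (Finset ZI) :=
  (SG P X).filter fun S => Set.InjOn (bl H) (la z S : Set ZI) ∧ S.card ≤ k ∧
    (∏ π ∈ sm z S, nrm π) * ∏ π ∈ la z S, XX H (bl H π) ≤ X

/-- the sum over the boxes, for the property `G` and the condition `N` -/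
def KEJ (G : Finset ZI → Prop) (N : Finset ZI → Finset ZI → Prop) (W : Finset ZI) (cc ε : ℝ) :
    Prop := ∃ C : ℝ, 1 ≤ C ∧
  ∀ (P : Par) (X z H k M : ℕ) (κ : ℝ), (∀ u ∈ W, nrm u ≤ z) → W.card ≤ k → 1 ≤ X → 1 ≤ H →
  1 ≤ z → 0 ≤ κ → C ≤ κ ^ 24 * z → (H : ℝ) * Real.log X < M →
  |(((RG P X z H k).filter fun S => N (sm z S) (la z S) ∧ G S).card : ℝ) -
      cc * (((RG P X z H k).filter fun S => N (sm z S) (la z S)).card : ℝ)| ≤
    ε * ((RG P X z H k).card : ℝ) +
    (16 * M + 16 : ℝ) ^ k * (3 ^ (9 * k ^ 2 + 9) * κ) * (X * (1 + Real.log X))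

end Pool.Agent.H691.GJ
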